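import Mathlib

set_option autoImplicit false

/-! Relative bounded generation: the arithmetic input (Dirichlet, quadratic reciprocity). -/

namespace Pool.Agent.IntComm.Rel

/-- a prime in a class, larger than a given bound -/
theorem exists_prime_int (n : ℕ) {N a : ℤ} (hN : N ≠ 0) (h : IsCoprime a N) :
    ∃ p : ℕ, n < p ∧ p.Prime ∧ N ∣ (p : ℤ) - a := by
  have h' : IsCoprime a (N.natAbs : ℤ) := by
    rcases Int.natAbs_eq N with h1 | h1
    · rwa [← h1]
    · rw [h1] at h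
      exact (IsCoprime.neg_right_iff _ _).1 h
  obtain ⟨p, hp1, hp2, hp3⟩ := Nat.forall_exists_prime_gt_and_zmodEq n
    (Int.natAbs_ne_zero.2 hN) h'
  refine ⟨p, hp1, hp2, ?_⟩
  have := (Int.modEq_iff_dvd.1 hp3.symm)
  exact (Int.natAbs_dvd).1 this

/-- CRT for integers -/
theorem crt {N M : ℤ} (h : IsCoprime N M) (a b : ℤ) : ∃ x, N ∣ x - a ∧ M ∣ x - b := by
  obtain ⟨u, v, huv⟩ := h
  refine ⟨a * (v * M) + b * (u * N), ⟨(b - a) * u, ?_⟩, ⟨(a - b) * v, ?_⟩⟩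
  · linear_combination a * huv
  · linear_combination b * huv

theorem prime_not_dvd_of_lt {p : ℕ} {z : ℤ} (hz : z ≠ 0) (h : z.natAbs < p) :
    ¬ (p : ℤ) ∣ z := by
  intro hd
  have := Nat.le_of_dvd (Int.natAbs_pos.2 hz) (Int.natCast_dvd.1 hd)
  omega

theorem coprime_prime {p : ℕ} (hp : p.Prime) {z : ℤ} (h : ¬ (p : ℤ) ∣ z) : IsCoprime z (p : ℤ) := by
  rw [isCoprime_comm]
  exact (Nat.prime_iff_prime_int.1 hp).irreducible.coprime_iff_not_dvd.2 h

/-- Fermat -/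
theorem fermat {p : ℕ} (hp : p.Prime) {a : ℤ} (h : ¬ (p : ℤ) ∣ a) {k : ℕ} (hk : p - 1 ∣ k) :
    (p : ℤ) ∣ a ^ k - 1 := by
  obtain ⟨j, rfl⟩ := hk
  have h1 : a ^ (p - 1) ≡ 1 [ZMOD p] := by
    exact Int.ModEq.pow_card_sub_one_eq_one hp (coprime_prime hp h)
  have h2 := h1.pow j
  rw [one_pow, ← pow_mul] at h2
  exact Int.modEq_iff_dvd.1 h2.symm

theorem pow_level {m a : ℤ} (h : m ∣ a - 1) (k : ℕ) : m ∣ a ^ k - 1 := by
  have := sub_dvd_pow_sub_pow a 1 k
  rw [one_pow] at this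
  exact h.trans this

/-- Lemma (9): a good representative, squares. Data: first row `(q, b')`, with `c` any lower left
entry of level `m`. -/
theorem good_rep (m a b : ℤ) (hm : m ≠ 0) (h1 : m ∣ a - 1) (h2 : m ∣ b) (h3 : IsCoprime a b) :
    ∃ (a' b' c' d' : ℤ) (s : ℤ) (k : ℕ), b ∣ a' - a ∧ b' = b + m * s * a' ∧
      a' * d' - b' * c' = 1 ∧ m ∣ a' - 1 ∧ m ∣ b' ∧ m ∣ c' ∧ m ∣ d' - 1 ∧
      b' ∣ a' ^ (2 * (k + 1)) - 1 ∧ c' ∣ a' ^ (2 * k) - 1 := by
  have ham : IsCoprime a m := by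
    obtain ⟨k, hk⟩ := h1
    exact ⟨1, -k, by linarith⟩
  obtain ⟨b₁, rfl⟩ := h2
  have hab : IsCoprime a b₁ := h3.of_mul_right_right
  by_cases hb0 : b₁ = 0
  · subst hb0
    rw [mul_zero] at h3
    have ha : IsUnit a := isCoprime_zero_right.1 h3
    rcases Int.isUnit_iff.1 ha with ha | ha
    · exact ⟨a, 0, 0, a, 0, 0, by simp, by simp, by simp [ha], by simp [ha], by simp, by simp,
        by simp [ha], by simp [ha], by simp⟩
    · exact ⟨a, 0, 0, a, 0, 0, by simp, by simp, by simp [ha], h1, by simp, by simp,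
        h1, by simp [ha], by simp⟩
  by_cases hb1 : b₁ = 1
  · subst hb1
    rw [mul_one] at h3
    obtain ⟨u, v, huv⟩ := ham.mul_right ham
    refine ⟨a, m, -(v * m), u, 0, 0, by simp, by ring, ?_, h1, dvd_refl _, ?_, ?_, ?_, by simp⟩
    · linear_combination huv
    · exact ((dvd_mul_left _ _)).neg_right
    · have : u - 1 = -(v * m) * m - u * (a - 1) := by linear_combination huv
      rw [this]
      exact (dvd_mul_left _ _).sub (h1.mul_left _)
    · exact pow_level h1 _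
  -- the prime q
  have hb : m * b₁ ≠ 0 := mul_ne_zero hm hb0
  obtain ⟨q, hq1, hq2, hq3⟩ := exists_prime_int (b₁.natAbs + (b₁ - 1).natAbs + 2) hb h3
  have hqb1 : ¬ (q : ℤ) ∣ b₁ := prime_not_dvd_of_lt hb0 (by omega)
  have hqb2 : ¬ (q : ℤ) ∣ b₁ - 1 := prime_not_dvd_of_lt (sub_ne_zero.2 hb1) (by omega)
  have hq0 : (q : ℤ) ≠ 0 := by exact_mod_cast hq2.ne_zero
  have hqm : m ∣ (q : ℤ) - 1 := by
    have : (q : ℤ) - 1 = ((q : ℤ) - a) + (a - 1) := by ring
    rw [this]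
    exact ((dvd_mul_right _ _).trans hq3).add h1
  -- the prime p
  obtain ⟨p, hp1, hp2, hp3⟩ := exists_prime_int (m.natAbs + q + 2) hq0 (coprime_prime hq2 hqb1)
  have hpm : ¬ (p : ℤ) ∣ m := prime_not_dvd_of_lt hm (by omega)
  have hpq : ¬ (p : ℤ) ∣ (q : ℤ) := prime_not_dvd_of_lt hq0 (by simp; omega)
  have hqp : ¬ (q : ℤ) ∣ (p : ℤ) - 1 := by
    intro h
    apply hqb2
    have : b₁ - 1 = ((p : ℤ) - 1) - ((p : ℤ) - b₁) := by ring
    rw [this]
    exact h.sub hp3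
  obtain ⟨s, hs⟩ := hp3
  -- completion
  have hcop : IsCoprime (q : ℤ) (m * (m * p)) := by
    have e1 : IsCoprime (q : ℤ) m := by
      obtain ⟨k, hk⟩ := hqm
      exact ⟨1, -k, by linarith⟩
    have e2 : IsCoprime (q : ℤ) (p : ℤ) := coprime_prime hp2 hpq
    exact e1.mul_right (e1.mul_right e2)
  obtain ⟨u, v, huv⟩ := hcop
  -- a' = q, b' = m p, c₀ = - m v, d₀ = u; c₁ = -v
  have hvq : ¬ (q : ℤ) ∣ -v := by
    intro h
    have h' : (q : ℤ) ∣ v := (dvd_neg).1 h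
    have : (q : ℤ) ∣ 1 := by
      rw [← huv]
      exact (dvd_mul_left _ _).add (h'.mul_right _)
    have := Int.natCast_dvd_natCast.1 (by exact_mod_cast this : ((q : ℕ) : ℤ) ∣ ((1 : ℕ) : ℤ))
    exact hq2.one_lt.ne' (Nat.dvd_one.1 this)
  -- the prime r
  have hp5 : 5 ≤ p := by
    have := hq2.two_le
    omega
  obtain ⟨P, hP⟩ : ∃ P : ℕ, p = 2 * P + 1 := by
    rcases hp2.eq_two_or_odd' with h | ⟨P, h⟩
    · omega
    · exact ⟨P, h⟩
  have hP0 : 0 < P := by omega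
  have hq3' : 3 ≤ q := by omega
  have hcop2 : IsCoprime (q : ℤ) (4 * P) := by
    have e0 : ¬ (q : ℤ) ∣ 4 * (P : ℤ) := by
      intro h
      have h' : (q : ℤ) ∣ 2 * ((p : ℤ) - 1) := by
        rw [hP]
        push_cast
        convert h using 1
        ring
      rcases (Nat.prime_iff_prime_int.1 hq2).dvd_or_dvd h' with h | h
      · have := Int.natCast_dvd_natCast.1 (by exact_mod_cast h : ((q : ℕ) : ℤ) ∣ ((2 : ℕ) : ℤ))
        have := Nat.le_of_dvd (by norm_num) this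
        omega
      · exact hqp h
    exact (coprime_prime hq2 e0).symm
  obtain ⟨x, hx1, hx2⟩ := crt hcop2 (-v) (-1)
  have hxc : IsCoprime x ((q : ℤ) * (4 * P)) := by
    refine IsCoprime.mul_right (coprime_prime hq2 fun h => hvq ?_) ?_
    · have : -v = x - (x - -v) := by ring
      rw [this]
      exact h.sub hx1
    · obtain ⟨z, hz⟩ := hx2
      exact ⟨-1, z, by linarith⟩
  obtain ⟨r, hr1, hr2, hr3⟩ := exists_prime_int (m.natAbs + q + 2)
    (mul_ne_zero hq0 (by positivity)) hxc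
  have hrm : ¬ (r : ℤ) ∣ m := prime_not_dvd_of_lt hm (by omega)
  have hrq : ¬ (r : ℤ) ∣ (q : ℤ) := prime_not_dvd_of_lt hq0 (by simp; omega)
  obtain ⟨t, ht⟩ : (q : ℤ) ∣ (r : ℤ) - -v := by
    have : (r : ℤ) - -v = ((r : ℤ) - x) + (x - -v) := by ring
    rw [this]
    exact ((dvd_mul_right _ _).trans hr3).add hx1
  obtain ⟨R, hR⟩ : ∃ R : ℕ, r = 2 * R + 1 := by
    rcases hr2.eq_two_or_odd' with h | ⟨R, h⟩
    · omega
    · exact ⟨R, h⟩
  have hPR : Nat.Coprime P R := by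
    have h4 : (4 * P : ℤ) ∣ (r : ℤ) + 1 := by
      have : (r : ℤ) + 1 = ((r : ℤ) - x) + (x - -1) := by ring
      rw [this]
      exact ((dvd_mul_left _ _).trans hr3).add hx2
    obtain ⟨z, hz⟩ := h4
    rw [← Nat.isCoprime_iff_coprime]
    refine ⟨2 * z, -1, ?_⟩
    rw [hR] at hz
    push_cast at hz
    linarith
  -- the exponent
  obtain ⟨k, hk1, hk2⟩ := Nat.chineseRemainder hPR (P - 1) 0
  have hk1' : P ∣ k + 1 := by
    have : k + 1 ≡ 0 [MOD P] := by
      have := hk1.add_right 1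
      rw [Nat.sub_add_cancel hP0] at this
      exact this.trans (by simp [Nat.ModEq])
    exact (Nat.modEq_zero_iff_dvd).1 this
  have hk2' : R ∣ k := (Nat.modEq_zero_iff_dvd).1 hk2
  have hpcop : IsCoprime m (p : ℤ) := coprime_prime hp2 hpm
  have hrcop : IsCoprime m (r : ℤ) := coprime_prime hr2 hrm
  refine ⟨q, m * p, m * r, u + p * m * m * t, s, k, hq3, ?_, ?_, hqm, dvd_mul_right _ _,
    dvd_mul_right _ _, ?_, ?_, ?_⟩
  · linear_combination m * hs
  · linear_combination huv - m * m * p * ht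
  · have : u + p * m * m * t - 1 = -(v * (m * p) - p * m * t) * m - u * ((q : ℤ) - 1) := by
      linear_combination huv
    rw [this]
    exact (dvd_mul_left _ _).sub (hqm.mul_left _)
  · refine hpcop.mul_dvd (pow_level hqm _) (fermat hp2 hpq ?_)
    rw [hP]
    simpa using Nat.mul_dvd_mul_left 2 hk1'
  · refine hrcop.mul_dvd (pow_level hqm _) (fermat hr2 hrq ?_)
    rw [hR]
    simpa using Nat.mul_dvd_mul_left 2 hk2'

/-- Lemma (10): every row is, after allowed moves, the row of a square. -/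
theorem square_rep (m a b : ℤ) (hm : m ≠ 0) (h1 : m ∣ a - 1) (h2 : m ∣ b) (h3 : IsCoprime a b) :
    ∃ (a' e b' s c : ℤ), b ∣ a' - a ∧ (e = 1 ∨ e = -1) ∧ b' = e * b + m * s * a' ∧
      b' ∣ a' - c ^ 2 ∧ m ∣ c - 1 ∧ m ∣ b' ∧ IsCoprime c b' := by
  obtain ⟨b₁, rfl⟩ := h2
  have hab : IsCoprime a b₁ := h3.of_mul_right_right
  by_cases hb0 : b₁ = 0
  · subst hb0
    rw [mul_zero] at h3
    have ha : IsUnit a := isCoprime_zero_right.1 h3
    rcases Int.isUnit_iff.1 ha with ha | ha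
    · exact ⟨1, 1, 0, 0, 1, by simp [ha], Or.inl rfl, by simp, by simp, by simp, by simp,
        isCoprime_one_left⟩
    · rw [ha] at h1
      obtain ⟨z, hz⟩ := h1
      refine ⟨-1, 1, 2, z, 1, by simp [ha], Or.inl rfl, ?_, ⟨-1, by norm_num⟩, by simp, ⟨-z, ?_⟩,
        isCoprime_one_left⟩
      · linear_combination (-1 : ℤ) * hz
      · linear_combination (-1 : ℤ) * hz
  have hb : m * b₁ ≠ 0 := mul_ne_zero hm hb0
  set b := m * b₁ with hbdef
  -- a representative congruent to 3 mod 4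
  obtain ⟨x, ε, hε, hx, hx4⟩ : ∃ x ε : ℤ, (ε = 1 ∨ ε = -1) ∧ b ∣ ε * x - a ∧ x % 4 = 3 := by
    have hodd : ¬ (a % 2 = 0 ∧ b % 2 = 0) := by
      rintro ⟨ha, hb⟩
      obtain ⟨u, v, huv⟩ := h3
      have e1 : (2 : ℤ) ∣ a := Int.dvd_of_emod_eq_zero ha
      have e2 : (2 : ℤ) ∣ b := Int.dvd_of_emod_eq_zero hb
      have : (2 : ℤ) ∣ 1 := by
        rw [← huv]
        exact (e1.mul_left _).add (e2.mul_left _)
      omega
    have c0 : ∀ j : ℤ, b ∣ 1 * (a + j * b) - a := fun j => ⟨j, by ring⟩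
    by_cases hc0 : a % 4 = 3
    · exact ⟨a, 1, Or.inl rfl, by simp, hc0⟩
    by_cases hc1 : (a + b) % 4 = 3
    · exact ⟨a + 1 * b, 1, Or.inl rfl, c0 1, by rw [one_mul]; exact hc1⟩
    by_cases hc2 : (a + 2 * b) % 4 = 3
    · exact ⟨a + 2 * b, 1, Or.inl rfl, c0 2, hc2⟩
    by_cases hc3 : (a + 3 * b) % 4 = 3
    · exact ⟨a + 3 * b, 1, Or.inl rfl, c0 3, hc3⟩
    · refine ⟨-a, -1, Or.inr rfl, by simp, ?_⟩
      have ha4 : a % 4 = 0 ∨ a % 4 = 1 ∨ a % 4 = 2 ∨ a % 4 = 3 := by omega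
      have hb4 : b % 4 = 0 ∨ b % 4 = 1 ∨ b % 4 = 2 ∨ b % 4 = 3 := by omega
      rcases ha4 with ha4 | ha4 | ha4 | ha4 <;> rcases hb4 with hb4 | hb4 | hb4 | hb4 <;> omega
  have hxb : IsCoprime x b := by
    obtain ⟨u, v, huv⟩ := h3
    obtain ⟨z, hz⟩ := hx
    exact ⟨u * ε, v - u * z, by linear_combination huv + u * hz⟩
  have hx2 : IsCoprime x (4 : ℤ) := by
    refine ⟨-1, (x + 1) / 4, ?_⟩
    omega
  obtain ⟨q, hq1, hq2, hq3⟩ := exists_prime_int (b₁.natAbs + 4) (mul_ne_zero four_ne_zero hb)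
    (hx2.mul_right hxb)
  have hq4 : (q : ℤ) % 4 = 3 := by
    obtain ⟨z, hz⟩ := (dvd_mul_right 4 b).trans hq3
    omega
  have hqb : b ∣ ε * (q : ℤ) - a := by
    have : ε * (q : ℤ) - a = ε * ((q : ℤ) - x) + (ε * x - a) := by ring
    rw [this]
    exact (((dvd_mul_left _ _).trans hq3).mul_left _).add hx
  have hq0 : (q : ℤ) ≠ 0 := by exact_mod_cast hq2.ne_zero
  have hqb1 : ¬ (q : ℤ) ∣ b₁ := prime_not_dvd_of_lt hb0 (by omega)
  have : Fact q.Prime := ⟨hq2⟩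
  -- choose the sign so that e * b₁ is a square modulo q
  obtain ⟨e, he, hesq⟩ : ∃ e : ℤ, (e = 1 ∨ e = -1) ∧ legendreSym q (e * b₁) = 1 := by
    have hb1q : ((b₁ : ℤ) : ZMod q) ≠ 0 := by
      rw [Ne, ZMod.intCast_zmod_eq_zero_iff_dvd]
      exact hqb1
    rcases legendreSym.eq_one_or_neg_one q hb1q with h | h
    · exact ⟨1, Or.inl rfl, by rw [one_mul]; exact h⟩
    · refine ⟨-1, Or.inr rfl, ?_⟩
      rw [legendreSym.mul, h]
      have h2 : legendreSym q (-1) = -1 := by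
        rw [legendreSym.at_neg_one (by omega)]
        rw [ZMod.χ₄_nat_three_mod_four (by omega)]
      rw [h2]
      norm_num
  have heb : ¬ (q : ℤ) ∣ e * b₁ := by
    intro h
    apply hqb1
    rcases he with he | he
    · rwa [he, one_mul] at h
    · rw [he, neg_one_mul] at h
      exact (dvd_neg).1 h
  -- the prime p
  have hq4c : IsCoprime (q : ℤ) 4 := ⟨-1, ((q : ℤ) + 1) / 4, by omega⟩
  obtain ⟨y, hy1, hy2⟩ := crt hq4c (e * b₁) 1
  have hyc : IsCoprime y ((q : ℤ) * 4) := by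
    refine IsCoprime.mul_right (coprime_prime hq2 fun h => heb ?_) ?_
    · have : e * b₁ = y - (y - e * b₁) := by ring
      rw [this]
      exact h.sub hy1
    · obtain ⟨z, hz⟩ := hy2
      exact ⟨1, -z, by linarith⟩
  obtain ⟨p, hp1, hp2, hp3⟩ := exists_prime_int (m.natAbs + q + 4)
    (mul_ne_zero hq0 four_ne_zero) hyc
  have : Fact p.Prime := ⟨hp2⟩
  have hp4 : p % 4 = 1 := by
    obtain ⟨z, hz⟩ := (dvd_mul_left 4 (q : ℤ)).trans hp3
    obtain ⟨w, hw⟩ := hy2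
    omega
  have hpq : (q : ℤ) ∣ (p : ℤ) - e * b₁ := by
    have : (p : ℤ) - e * b₁ = ((p : ℤ) - y) + (y - e * b₁) := by ring
    rw [this]
    exact ((dvd_mul_right _ _).trans hp3).add hy1
  have hpm : ¬ (p : ℤ) ∣ m := prime_not_dvd_of_lt hm (by omega)
  have hpnq : ¬ (p : ℤ) ∣ (q : ℤ) := prime_not_dvd_of_lt hq0 (by simp; omega)
  -- reciprocity
  have hrec : legendreSym p q = 1 := by
    have h1 : legendreSym q p = 1 := by
      rw [← hesq]
      have h2 : (((p : ℤ) : ℤ) : ZMod q) = ((e * b₁ : ℤ) : ZMod q) := by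
        rw [← sub_eq_zero, ← Int.cast_sub, ZMod.intCast_zmod_eq_zero_iff_dvd]
        exact hpq
      unfold legendreSym
      rw [h2]
    rw [← h1]
    exact (legendreSym.quadratic_reciprocity_one_mod_four hp4 (by omega)).symm
  have hneg : legendreSym p (-1) = 1 := by
    rw [legendreSym.at_neg_one (by omega)]
    exact ZMod.χ₄_nat_one_mod_four hp4
  have hsq : legendreSym p (ε * q) = 1 := by
    rw [legendreSym.mul, hrec, mul_one]
    rcases hε with h | h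
    · rw [h, legendreSym.at_one]
    · rw [h, hneg]
  have hne : ((ε * (q : ℤ) : ℤ) : ZMod p) ≠ 0 := by
    rw [Ne, ZMod.intCast_zmod_eq_zero_iff_dvd]
    intro h
    apply hpnq
    rcases hε with h' | h'
    · rwa [h', one_mul] at h
    · rw [h', neg_one_mul] at h
      exact (dvd_neg).1 h
  obtain ⟨z, hz⟩ := (legendreSym.eq_one_iff p hne).1 hsq
  have hzp : (p : ℤ) ∣ ε * q - (z.val : ℤ) ^ 2 := by
    rw [← ZMod.intCast_zmod_eq_zero_iff_dvd]
    push_cast
    rw [ZMod.natCast_zmod_val]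
    have : (ε : ZMod p) * (q : ZMod p) = z * z := by exact_mod_cast hz
    rw [this]
    ring
  have hmp : IsCoprime (p : ℤ) m := (coprime_prime hp2 hpm).symm
  obtain ⟨c, hc1, hc2⟩ := crt hmp (z.val : ℤ) 1
  obtain ⟨s, hs⟩ := hpq
  have hpc : (p : ℤ) ∣ ε * q - c ^ 2 := by
    have : ε * q - c ^ 2 = (ε * q - (z.val : ℤ) ^ 2) - (c - z.val) * (c + z.val) := by ring
    rw [this]
    exact hzp.sub (hc1.mul_right _)
  have hma : m ∣ ε * (q : ℤ) - 1 := by
    have : ε * (q : ℤ) - 1 = (ε * (q : ℤ) - a) + (a - 1) := by ring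
    rw [this]
    exact ((dvd_mul_right _ _).trans hqb).add h1
  have hee : ε * ε = 1 := by
    rcases hε with h | h <;> rw [h] <;> norm_num
  refine ⟨ε * q, e, m * p, s * ε, c, hqb, he, ?_, ?_, hc2, dvd_mul_right _ _, ?_⟩
  · rw [hbdef]
    linear_combination m * hs - m * q * s * hee
  · refine hmp.symm.mul_dvd ?_ hpc
    have : ε * (q : ℤ) - c ^ 2 = (ε * q - 1) - (c - 1) * (c + 1) := by ring
    rw [this]
    exact hma.sub (hc2.mul_right _)
  · refine IsCoprime.mul_right ?_ (coprime_prime hp2 ?_)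
    · obtain ⟨w, hw⟩ := hc2
      exact ⟨1, -w, by linarith⟩
    · intro h
      apply hne
      rw [ZMod.intCast_zmod_eq_zero_iff_dvd]
      have : ε * (q : ℤ) = (ε * q - c ^ 2) + c * c := by ring
      rw [this]
      exact hpc.add (h.mul_right _)

end Pool.Agent.IntComm.Rel
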