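import Pool.Agent.Work.MP_584b0c_al.Defs

set_option autoImplicit false

/-! Relative bounded generation, uniform in the level: the framework.
`Bd m` is the normal subgroup of all families `w : I → SL_n(ℤ)` such that every `w t` is a product
of a bounded number (bounded independently of `t`) of conjugates of elementary matrices of level
`m t`. -/

namespace Pool.Agent.IntComm.Rel

open Matrix Matrix.SpecialLinearGroup

section Len

variable {G : Type} [Group G]

/-- `w` is a product of at most `k` members of `S`. -/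
def Len (S : Set G) (k : ℕ) (w : G) : Prop :=
  ∃ L : List G, L.length ≤ k ∧ (∀ y ∈ L, y ∈ S) ∧ L.prod = w

theorem Len.one (S : Set G) : Len S 0 1 := ⟨[], le_refl _, by simp, by simp⟩

theorem Len.mono {S : Set G} {k l : ℕ} {w : G} (h : Len S k w) (hk : k ≤ l) : Len S l w := by
  obtain ⟨L, h1, h2, h3⟩ := h
  exact ⟨L, h1.trans hk, h2, h3⟩

theorem Len.of_mem {S : Set G} {w : G} (h : w ∈ S) : Len S 1 w :=
  ⟨[w], by simp, by simpa using h, by simp⟩

theorem Len.mul {S : Set G} {k l : ℕ} {v w : G} (hv : Len S k v) (hw : Len S l w) :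
    Len S (k + l) (v * w) := by
  obtain ⟨L, h1, h2, h3⟩ := hv
  obtain ⟨M, k1, k2, k3⟩ := hw
  refine ⟨L ++ M, by rw [List.length_append]; omega, ?_, by rw [List.prod_append, h3, k3]⟩
  intro y hy
  rcases List.mem_append.1 hy with h | h
  · exact h2 y h
  · exact k2 y h

theorem Len.map {H : Type} [Group H] {S : Set G} {T : Set H} (f : G →* H)
    (hf : ∀ y ∈ S, f y ∈ T) {k : ℕ} {w : G} (h : Len S k w) : Len T k (f w) := by
  obtain ⟨L, h1, h2, rfl⟩ := h
  refine ⟨L.map f, by simpa using h1, ?_, by rw [← map_list_prod]⟩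
  intro y hy
  obtain ⟨x, hx, rfl⟩ := List.mem_map.1 hy
  exact hf x (h2 x hx)

theorem Len.inv {S : Set G} (hS : ∀ y ∈ S, y⁻¹ ∈ S) {k : ℕ} {w : G} (h : Len S k w) :
    Len S k w⁻¹ := by
  obtain ⟨L, h1, h2, rfl⟩ := h
  refine ⟨(L.map fun x => x⁻¹).reverse, by simpa using h1, ?_, by rw [List.prod_inv_reverse]⟩
  intro y hy
  rw [List.mem_reverse] at hy
  obtain ⟨x, hx, rfl⟩ := List.mem_map.1 hy
  exact hS x (h2 x hx)

theorem Len.conj {S : Set G} (hS : ∀ g : G, ∀ y ∈ S, g * y * g⁻¹ ∈ S) {k : ℕ} {w : G}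
    (h : Len S k w) (g : G) : Len S k (g * w * g⁻¹) :=
  Len.map (MulAut.conj g).toMonoidHom (fun y hy => hS g y hy) h

end Len

section Level

variable (n : Type) [Fintype n] [DecidableEq n]

/-- Conjugates of elementary matrices of level `m`. -/
def CE (m : ℤ) : Set (SpecialLinearGroup n ℤ) :=
  {w | ∃ (g : SpecialLinearGroup n ℤ) (i j : n) (h : i ≠ j) (x : ℤ),
    w = g * transvection h (m * x) * g⁻¹}

variable {n}

theorem CE_conj {m : ℤ} (g : SpecialLinearGroup n ℤ) (y : SpecialLinearGroup n ℤ)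
    (hy : y ∈ CE n m) : g * y * g⁻¹ ∈ CE n m := by
  obtain ⟨u, i, j, h, x, rfl⟩ := hy
  exact ⟨g * u, i, j, h, x, by group⟩

theorem CE_inv {m : ℤ} (y : SpecialLinearGroup n ℤ) (hy : y ∈ CE n m) : y⁻¹ ∈ CE n m := by
  obtain ⟨u, i, j, h, x, rfl⟩ := hy
  refine ⟨u, i, j, h, -x, ?_⟩
  rw [mul_neg, ← transvection_inv]
  group

theorem CE_transvection {m : ℤ} {i j : n} (h : i ≠ j) {x : ℤ} (hx : m ∣ x) :
    (transvection h x : SpecialLinearGroup n ℤ) ∈ CE n m := by
  obtain ⟨y, rfl⟩ := hx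
  exact ⟨1, i, j, h, y, by group⟩

variable {I : Type}

/-- Families of bounded length. -/
def Bd (n : Type) [Fintype n] [DecidableEq n] (m : I → ℤ) :
    Subgroup (I → SpecialLinearGroup n ℤ) where
  carrier := {w | ∃ k : ℕ, ∀ t, Len (CE n (m t)) k (w t)}
  mul_mem' := by
    rintro v w ⟨k, hk⟩ ⟨l, hl⟩
    exact ⟨k + l, fun t => (hk t).mul (hl t)⟩
  one_mem' := ⟨0, fun t => Len.one _⟩
  inv_mem' := by
    rintro v ⟨k, hk⟩
    exact ⟨k, fun t => (hk t).inv CE_inv⟩

instance instNormalBd (m : I → ℤ) : (Bd n m).Normal where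
  conj_mem := by
    rintro w ⟨k, hk⟩ g
    exact ⟨k, fun t => (hk t).conj CE_conj (g t)⟩

theorem mem_Bd {m : I → ℤ} {w : I → SpecialLinearGroup n ℤ} :
    w ∈ Bd n m ↔ ∃ k : ℕ, ∀ t, Len (CE n (m t)) k (w t) := Iff.rfl

/-- pointwise inversion at some of the indices -/
theorem Bd_of_inv {m : I → ℤ} {v w : I → SpecialLinearGroup n ℤ} (hv : v ∈ Bd n m)
    (h : ∀ t, w t = v t ∨ w t = (v t)⁻¹) : w ∈ Bd n m := by
  obtain ⟨k, hk⟩ := hv
  refine ⟨k, fun t => ?_⟩
  rcases h t with h | h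
  · rw [h]; exact hk t
  · rw [h]; exact (hk t).inv CE_inv

/-- a family of elementary matrices -/
def ef {i j : n} (h : i ≠ j) (x : I → ℤ) : I → SpecialLinearGroup n ℤ :=
  fun t => transvection h (x t)

theorem ef_mem {m : I → ℤ} {i j : n} (h : i ≠ j) {x : I → ℤ} (hx : ∀ t, m t ∣ x t) :
    ef h x ∈ Bd n m :=
  ⟨1, fun t => Len.of_mem (CE_transvection h (hx t))⟩

theorem ef_add {i j : n} (h : i ≠ j) (x y : I → ℤ) : ef h (x + y) = ef h x * ef h y := by
  funext t
  exact transvection_add h _ _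

theorem ef_zero {i j : n} (h : i ≠ j) : (ef h 0 : I → SpecialLinearGroup n ℤ) = 1 := by
  funext t
  exact transvection_coeff_zero h

/-- transposition -/
theorem Bd_transpose {m : I → ℤ} {w : I → SpecialLinearGroup n ℤ} (hw : w ∈ Bd n m) :
    (fun t => (w t).transpose) ∈ Bd n m := by
  obtain ⟨k, hk⟩ := hw
  refine ⟨k, fun t => ?_⟩
  obtain ⟨L, h1, h2, h3⟩ := hk t
  have hmul : ∀ A B : SpecialLinearGroup n ℤ, (A * B).transpose = B.transpose * A.transpose := by
    intro A B
    apply Subtype.ext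
    exact Matrix.transpose_mul A.1 B.1
  have hone : (1 : SpecialLinearGroup n ℤ).transpose = 1 := by
    apply Subtype.ext
    exact Matrix.transpose_one
  have hinv : ∀ A : SpecialLinearGroup n ℤ, (A⁻¹).transpose = (A.transpose)⁻¹ := by
    intro A
    rw [eq_inv_iff_mul_eq_one, ← hmul, mul_inv_cancel, hone]
  refine ⟨(L.map fun x => x.transpose).reverse, by simpa using h1, ?_, ?_⟩
  · intro y hy
    rw [List.mem_reverse] at hy
    obtain ⟨x, hx, rfl⟩ := List.mem_map.1 hy
    obtain ⟨g, i, j, h, z, rfl⟩ := h2 x hx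
    refine ⟨(g⁻¹).transpose, j, i, h.symm, z, ?_⟩
    rw [hmul, hmul, ← hinv, inv_inv, ← mul_assoc]
    congr 2
    apply Subtype.ext
    show (Matrix.transvection i j (m t * z))ᵀ = Matrix.transvection j i (m t * z)
    rw [Matrix.transvection, Matrix.transvection, Matrix.transpose_add, Matrix.transpose_one,
      Matrix.transpose_single]
  · show _ = (w t).transpose
    rw [← h3]
    clear h1 h2 h3
    induction L with
    | nil => simp [hone]
    | cons a L ih =>
      rw [List.map_cons, List.reverse_cons, List.prod_append, ih, List.prod_singleton,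
        List.prod_cons, hmul]

end Level

end Pool.Agent.IntComm.Rel
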