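import Pool.Agent.Work.MP_584b0c_al.Rel.Main
import Pool.Agent.Work.MP_584b0c_al.SR

set_option autoImplicit false

/-! Relative bounded generation: from `SL_2` to `SL_J`. -/

namespace Pool.Agent.IntComm.Rel

open Matrix Matrix.SpecialLinearGroup

section gen

variable {n : Type} [Fintype n] [DecidableEq n]

/-- congruent to one modulo `m` -/
def LvN (m : ℤ) (w : SpecialLinearGroup n ℤ) : Prop :=
  ∀ i j, m ∣ w.1 i j - (1 : Matrix n n ℤ) i j

theorem LvN.one (m : ℤ) : LvN m (1 : SpecialLinearGroup n ℤ) := by
  intro i j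
  show m ∣ (1 : Matrix n n ℤ) i j - (1 : Matrix n n ℤ) i j
  rw [sub_self]
  exact dvd_zero _

theorem LvN_iff (m : ℤ) (w : SpecialLinearGroup n ℤ) :
    LvN m w ↔ SpecialLinearGroup.map (Int.castRingHom (ZMod m.natAbs)) w = 1 := by
  have key : ∀ x y : ℤ, m ∣ x - y ↔ ((x : ℤ) : ZMod m.natAbs) = (y : ℤ) := by
    intro x y
    rw [← sub_eq_zero, ← Int.cast_sub, ZMod.intCast_zmod_eq_zero_iff_dvd, Int.natAbs_dvd]
  constructor
  · intro h
    apply Subtype.ext
    ext i j
    show ((w.1 i j : ℤ) : ZMod m.natAbs) = (1 : Matrix n n (ZMod m.natAbs)) i j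
    rw [(key _ _).1 (h i j)]
    by_cases hij : i = j
    · subst hij; simp
    · simp [hij]
  · intro h i j
    rw [key]
    have h1 := congrFun (congrFun (congrArg Subtype.val h) i) j
    have h2 : ((w.1 i j : ℤ) : ZMod m.natAbs) = (1 : Matrix n n (ZMod m.natAbs)) i j := h1
    rw [h2]
    by_cases hij : i = j
    · subst hij; simp
    · simp [hij]

theorem LvN.mul {m : ℤ} {v w : SpecialLinearGroup n ℤ} (hv : LvN m v) (hw : LvN m w) :
    LvN m (v * w) := by
  rw [LvN_iff] at *
  rw [map_mul, hv, hw, one_mul]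

theorem LvN.inv {m : ℤ} {v : SpecialLinearGroup n ℤ} (hv : LvN m v) : LvN m v⁻¹ := by
  rw [LvN_iff] at *
  rw [map_inv, hv, inv_one]

theorem LvN.conj {m : ℤ} {v : SpecialLinearGroup n ℤ} (hv : LvN m v)
    (g : SpecialLinearGroup n ℤ) : LvN m (g * v * g⁻¹) := by
  rw [LvN_iff] at *
  rw [map_mul, map_mul, hv, mul_one, ← map_mul, mul_inv_cancel, map_one]

theorem LvN_transvection {m : ℤ} {i j : n} (h : i ≠ j) {x : ℤ} (hx : m ∣ x) :
    LvN m (transvection h x : SpecialLinearGroup n ℤ) := by
  intro a b
  rw [transvection_coe, Matrix.add_apply, add_sub_cancel_left, Matrix.single_apply]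
  split_ifs
  · exact hx
  · exact dvd_zero _

theorem LvN_CE {m : ℤ} {w : SpecialLinearGroup n ℤ} (h : w ∈ CE n m) : LvN m w := by
  obtain ⟨g, i, j, h, x, rfl⟩ := h
  exact (LvN_transvection h (dvd_mul_right _ _)).conj g

theorem LvN_Len {m : ℤ} {k : ℕ} {w : SpecialLinearGroup n ℤ} (h : Len (CE n m) k w) :
    LvN m w := by
  obtain ⟨L, -, h2, rfl⟩ := h
  induction L with
  | nil => exact LvN.one m
  | cons a L ih =>
    rw [List.prod_cons]
    exact (LvN_CE (h2 a (by simp))).mul (ih fun y hy => h2 y (by simp [hy]))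

/-- a product of transvections adding multiples of the entry `i₀` to the other entries -/
theorem exRU {m : ℤ} (i₀ : n) (y : n → ℤ) (hy0 : y i₀ = 0) (hy : ∀ j, m ∣ y j) :
    ∃ M : SpecialLinearGroup n ℤ, Len (CE n m) (Fintype.card n) M ∧
      ∀ r : n → ℤ, r ᵥ* M.1 = r + r i₀ • y := by
  suffices H : ∀ (s : Finset n) (y : n → ℤ), y i₀ = 0 → (∀ j, m ∣ y j) → (∀ j, j ∉ s → y j = 0) →
      ∃ M : SpecialLinearGroup n ℤ, Len (CE n m) s.card M ∧
      ∀ r : n → ℤ, r ᵥ* M.1 = r + r i₀ • y by
    exact H Finset.univ y hy0 hy (fun j hj => absurd (Finset.mem_univ j) hj)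
  intro s
  induction s using Finset.induction_on with
  | empty =>
    intro y _ _ hs
    have : y = 0 := funext fun j => hs j (by simp)
    refine ⟨1, by simpa using Len.one _, fun r => ?_⟩
    rw [this, smul_zero, add_zero]
    exact Matrix.vecMul_one r
  | insert a s has ih =>
    intro y h0 h1 hs
    obtain ⟨M, hM1, hM2⟩ := ih (Function.update y a 0) (by
        by_cases h : i₀ = a
        · rw [h, Function.update_self]
        · rw [Function.update_of_ne h, h0]) (fun j => by
        by_cases h : j = a
        · rw [h, Function.update_self]; exact dvd_zero _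
        · rw [Function.update_of_ne h]; exact h1 j) (fun j hj => by
        by_cases h : j = a
        · rw [h, Function.update_self]
        · rw [Function.update_of_ne h]; exact hs j (by simp [h, hj]))
    by_cases hia : i₀ = a
    · refine ⟨M, hM1.mono (Finset.card_le_card (Finset.subset_insert _ _)), fun r => ?_⟩
      rw [hM2 r]
      congr 2
      rw [← hia, ← h0, Function.update_eq_self]
    · refine ⟨M * transvection hia (y a), ?_, fun r => ?_⟩
      · rw [Finset.card_insert_of_notMem has]
        exact hM1.mul (Len.of_mem (CE_transvection hia (h1 a)))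
      · show r ᵥ* (M.1 * (transvection hia (y a) : SpecialLinearGroup n ℤ).1) = _
        have hsing : ∀ (r : n → ℤ) (j : n),
            (r ᵥ* Matrix.single i₀ a (y a)) j = if j = a then r i₀ * y a else 0 := by
          intro r j
          simp only [Matrix.vecMul, dotProduct, Matrix.single_apply]
          by_cases hj : j = a
          · subst hj
            simp
          · simp [hj, Ne.symm hj]
        rw [← Matrix.vecMul_vecMul, hM2, transvection_coe, Matrix.vecMul_add, Matrix.vecMul_one]
        ext j
        rw [Pi.add_apply, hsing]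
        simp only [Pi.add_apply, Pi.smul_apply, smul_eq_mul]
        by_cases hj : j = a
        · subst hj
          simp [Function.update_self, Function.update_of_ne hia, h0]
        · simp [hj]

theorem exCU {m : ℤ} (i₀ : n) (y : n → ℤ) (hy0 : y i₀ = 0) (hy : ∀ j, m ∣ y j) :
    ∃ M : SpecialLinearGroup n ℤ, Len (CE n m) (Fintype.card n) M ∧
      ∀ r : n → ℤ, M.1 *ᵥ r = r + r i₀ • y := by
  obtain ⟨M, hM1, hM2⟩ := exRU i₀ y hy0 hy
  refine ⟨M.transpose, ?_, fun r => ?_⟩
  · obtain ⟨L, h1, h2, h3⟩ := hM1
    refine ⟨(L.map fun x => x.transpose).reverse, by simpa using h1, ?_, ?_⟩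
    · intro z hz
      rw [List.mem_reverse] at hz
      obtain ⟨x, hx, rfl⟩ := List.mem_map.1 hz
      obtain ⟨g, i, j, hij, u, rfl⟩ := h2 x hx
      have hinv : ∀ A : SpecialLinearGroup n ℤ, (A⁻¹).transpose = (A.transpose)⁻¹ := by
        intro A
        rw [eq_inv_iff_mul_eq_one, ← tr_mul, mul_inv_cancel]
        apply Subtype.ext
        exact Matrix.transpose_one
      refine ⟨(g⁻¹).transpose, j, i, hij.symm, u, ?_⟩
      rw [tr_mul, tr_mul, ← hinv, inv_inv, ← mul_assoc]
      congr 2
      apply Subtype.ext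
      show (Matrix.transvection i j (m * u))ᵀ = Matrix.transvection j i (m * u)
      rw [Matrix.transvection, Matrix.transvection, Matrix.transpose_add, Matrix.transpose_one,
        Matrix.transpose_single]
    · rw [← h3]
      clear h1 h2 h3 hM2
      induction L with
      | nil =>
        apply Subtype.ext
        exact Matrix.transpose_one.symm
      | cons a L ih =>
        rw [List.map_cons, List.reverse_cons, List.prod_append, ih, List.prod_singleton,
          List.prod_cons, tr_mul]
  · show (M.1)ᵀ *ᵥ r = _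
    rw [Matrix.mulVec_transpose]
    exact hM2 r

end gen

end Pool.Agent.IntComm.Rel
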