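import Pool.Agent.Work.MP_584b0c_al.Rel.Mul
import Pool.Agent.Work.MP_584b0c_al.Rel.Arith

set_option autoImplicit false

/-! Relative bounded generation: `SL_2(ℤ, m)` has bounded length in `SL_3(ℤ)`, uniformly in the
level. -/

namespace Pool.Agent.IntComm.Rel

open Matrix Matrix.SpecialLinearGroup

section

variable {I : Type} {m : I → ℤ}

theorem tr_mul {n : Type} [Fintype n] [DecidableEq n] (A B : SpecialLinearGroup n ℤ) :
    (A * B).transpose = B.transpose * A.transpose := by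
  apply Subtype.ext
  exact Matrix.transpose_mul A.1 B.1

theorem tr_pow {n : Type} [Fintype n] [DecidableEq n] (A : SpecialLinearGroup n ℤ) (k : ℕ) :
    (A ^ k).transpose = A.transpose ^ k := by
  induction k with
  | zero =>
    apply Subtype.ext
    exact Matrix.transpose_one
  | succ k ih => rw [pow_succ, tr_mul, ih, pow_succ']

theorem tr_hat (A : G2) : (hat A).transpose = hat A.transpose := by
  apply Subtype.ext
  show (hm A.1)ᵀ = hm (A.1)ᵀ
  unfold hm
  ext i j
  fin_cases i <;> fin_cases j <;> rfl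

/-- powers killed by the lower left entry -/
theorem H_pow_low {A : I → G2} (hA : Lv m A) (k : I → ℕ)
    (hk : ∀ t, (A t).1 1 0 ∣ (A t).1 0 0 ^ (2 * k t) - 1) :
    H m (fun t => A t ^ (2 * k t)) = 1 := by
  let T : I → G2 := fun t => (A t).transpose
  have hT : Lv m T := by
    intro t
    obtain ⟨h1, h2, h3, h4⟩ := hA t
    exact ⟨h1, h3, h2, h4⟩
  have h1 := H_pow hT k
  have hR : Rw m (fun t => (T t).1 0 0 ^ (2 * k t)) (fun t => (T t).1 0 1) := by
    intro t
    have := Lv_row hT t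
    exact ⟨pow_level this.1 _, this.2.1, this.2.2.pow_left⟩
  have h2 : H m (fun t => T t ^ (2 * k t)) = 1 := by
    rw [h1]
    exact sy_of_dvd hR (fun t => hk t)
  have h3 : hp (fun t => T t ^ (2 * k t)) ∈ Bd (Fin 3) m := mk_eq_one.1 h2
  have h4 := Bd_transpose h3
  refine mk_eq_one.2 ?_
  have h5 : (fun t => (hp (fun t => T t ^ (2 * k t)) t).transpose) =
      hp (fun t => A t ^ (2 * k t)) := by
    funext t
    show (hat (T t ^ (2 * k t))).transpose = hat (A t ^ (2 * k t))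
    rw [tr_hat, tr_pow]
    rfl
  rw [← h5]
  exact h4

theorem H_pow_up {A : I → G2} (hA : Lv m A) (k : I → ℕ)
    (hk : ∀ t, (A t).1 0 1 ∣ (A t).1 0 0 ^ (2 * k t) - 1) :
    H m (fun t => A t ^ (2 * k t)) = 1 := by
  rw [H_pow hA k]
  refine sy_of_dvd ?_ (fun t => hk t)
  intro t
  have := Lv_row hA t
  exact ⟨pow_level this.1 _, this.2.1, this.2.2.pow_left⟩

theorem sy_sq (hm : ∀ t, m t ≠ 0) {a b : I → ℤ} (h : Rw m a b) : sy m a b * sy m a b = 1 := by
  choose a' b' c' d' s k h1 h2 h3 h4 h5 h6 h7 h8 h9 using fun t =>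
    good_rep (m t) (a t) (b t) (hm t) (h t).1 (h t).2.1 (h t).2.2
  let A : I → G2 := fun t => ⟨!![a' t, b' t; c' t, d' t], by
    rw [Matrix.det_fin_two_of]
    exact h3 t⟩
  have hA : Lv m A := fun t => ⟨h4 t, h5 t, h6 t, h7 t⟩
  have e1 : sy m a b = H m A := by
    rw [sy_eq hA (a := a') (b := b') (fun t => rfl) (fun t => rfl),
      sy_add_right (Rw_congr h h1) s b' h2, sy_congr_left h h1]
  have e2 : H m (fun t => A t ^ (2 * (k t + 1))) = 1 := H_pow_up hA (fun t => k t + 1) h8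
  have e3 : H m (fun t => A t ^ (2 * k t)) = 1 := H_pow_low hA k h9
  have e4 : (fun t => A t ^ (2 * (k t + 1))) = A * A * fun t => A t ^ (2 * k t) := by
    funext t
    show A t ^ (2 * (k t + 1)) = A t * A t * A t ^ (2 * k t)
    rw [mul_add, mul_one, add_comm, pow_add, pow_two]
  rw [e4, H_mul, H_mul, e3, mul_one] at e2
  rw [e1]
  exact e2

theorem sy_trivial (hm : ∀ t, m t ≠ 0) {a b : I → ℤ} (h : Rw m a b) : sy m a b = 1 := by
  choose a' e b' s c h1 h2 h3 h4 h5 h6 h7 using fun t =>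
    square_rep (m t) (a t) (b t) (hm t) (h t).1 (h t).2.1 (h t).2.2
  have r1 := Rw_congr h h1
  -- the sign
  have r2 : Rw m a' (fun t => e t * b t) := by
    intro t
    obtain ⟨k1, k2, k3⟩ := r1 t
    refine ⟨k1, k2.mul_left _, ?_⟩
    rcases h2 t with h | h
    · show IsCoprime (a' t) (e t * b t)
      rwa [h, one_mul]
    · show IsCoprime (a' t) (e t * b t)
      rw [h, neg_one_mul]
      exact k3.neg_right
  have e2 : sy m a' (fun t => e t * b t) = sy m a' b := by
    have hce : ∀ t, IsCoprime (a' t) (e t) := by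
      intro t
      rcases h2 t with h | h
      · rw [h]; exact isCoprime_one_right
      · rw [h]; exact isCoprime_one_right.neg_right
    have h3 := sy_split r1 hce
    have hR : Rw m a' (fun t => m t * e t) := by
      intro t
      refine ⟨(r1 t).1, dvd_mul_right _ _, IsCoprime.mul_right ?_ (hce t)⟩
      obtain ⟨z, hz⟩ := (r1 t).1
      exact ⟨1, -z, by linarith⟩
    have h4 : sy m a' (fun t => m t * e t) = 1 := by
      refine sy_of_dvd hR (fun t => ?_)
      rcases h2 t with h | h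
      · rw [h, mul_one]; exact (r1 t).1
      · rw [h, mul_neg_one]; exact (neg_dvd).2 (r1 t).1
    rw [h4, mul_one] at h3
    rw [← h3]
    congr 1
    funext t
    ring
  have e3 : sy m a' b' = sy m a' (fun t => e t * b t) := sy_add_right r2 s b' h3
  have r3 : Rw m a' b' := by
    intro t
    obtain ⟨k1, k2, k3⟩ := r2 t
    refine ⟨k1, h6 t, ?_⟩
    rw [h3]
    exact k3.add_mul_right_right (m t * s t)
  have r4 : Rw m c b' := fun t => ⟨h5 t, h6 t, h7 t⟩
  have e4 : sy m a' b' = sy m (fun t => c t * c t) b' := by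
    refine sy_congr_left ?_ (fun t => by rw [← pow_two]; exact h4 t)
    intro t
    obtain ⟨k1, k2, k3⟩ := r4 t
    refine ⟨?_, k2, k3.mul_left k3⟩
    have e : c t * c t - 1 = (c t - 1) * (c t + 1) := by ring
    show m t ∣ c t * c t - 1
    rw [e]
    exact k1.mul_right _
  rw [← sy_congr_left h h1, ← e2, ← e3, e4, ← sy_mul_left r4 r4, sy_sq hm r4]

theorem hat_mem (hm : ∀ t, m t ≠ 0) {A : I → G2} (hA : Lv m A) : hp A ∈ Bd (Fin 3) m := by
  refine mk_eq_one.1 ?_
  have h := sy_eq hA (fun t => rfl) (fun t => rfl)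
  unfold H at h
  rw [h]
  exact sy_trivial hm (Lv_row hA)

end

/-- `SL_2(ℤ, m)` inside `SL_3(ℤ)`: bounded generation uniform in the level. -/
theorem hat_bounded : ∃ K : ℕ, ∀ m : ℤ, m ≠ 0 → ∀ A : G2,
    m ∣ A.1 0 0 - 1 → m ∣ A.1 0 1 → m ∣ A.1 1 0 → m ∣ A.1 1 1 - 1 →
    Len (CE (Fin 3) m) K (hat A) := by
  let J : Type := {x : ℤ × G2 // x.1 ≠ 0 ∧ x.1 ∣ x.2.1 0 0 - 1 ∧ x.1 ∣ x.2.1 0 1 ∧
    x.1 ∣ x.2.1 1 0 ∧ x.1 ∣ x.2.1 1 1 - 1}
  obtain ⟨K, hK⟩ := hat_mem (I := J) (m := fun x => x.1.1) (fun x => x.2.1)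
    (A := fun x => x.1.2) (fun x => x.2.2)
  exact ⟨K, fun m hm A h1 h2 h3 h4 => hK ⟨(m, A), hm, h1, h2, h3, h4⟩⟩

end Pool.Agent.IntComm.Rel
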