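import Pool.Agent.Work.MP_584b0c_al.Rel.Sym

set_option autoImplicit false

/-! Relative bounded generation: multiplicativity and powers of the relative symbols. -/

namespace Pool.Agent.IntComm.Rel

open Matrix Matrix.SpecialLinearGroup

section

variable {I : Type} {m : I → ℤ}

/-- `1 ⊕ A` -/
def lo (A : G2) : G3 := ⟨!![1, 0, 0; 0, A.1 0 0, A.1 0 1; 0, A.1 1 0, A.1 1 1], by
  have h := G2det A
  simp [Matrix.det_fin_three]
  linarith⟩

/-- `A` in the coordinates `0, 2` -/
def md (A : G2) : G3 := ⟨!![A.1 0 0, 0, A.1 0 1; 0, 1, 0; A.1 1 0, 0, A.1 1 1], by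
  have h := G2det A
  simp [Matrix.det_fin_three]
  linarith⟩

def w01 : I → G3 := e01 1 * e10 (-1) * e01 1
def w12 : I → G3 := e12 1 * e21 (-1) * e12 1

theorem w01_val (t : I) : (w01 t).1 = !![0, 1, 0; -1, 0, 0; 0, 0, 1] := by
  show (transvection _ (1 : ℤ) : G3).1 * (transvection _ (-1 : ℤ) : G3).1 *
    (transvection _ (1 : ℤ) : G3).1 = _
  rw [tr01, tr10]
  ext i j
  fin_cases i <;> fin_cases j <;> simp [Matrix.mul_apply, Fin.sum_univ_three]

theorem w12_val (t : I) : (w12 t).1 = !![1, 0, 0; 0, 0, 1; 0, -1, 0] := by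
  show (transvection _ (1 : ℤ) : G3).1 * (transvection _ (-1 : ℤ) : G3).1 *
    (transvection _ (1 : ℤ) : G3).1 = _
  rw [tr12, tr21]
  ext i j
  fin_cases i <;> fin_cases j <;> simp [Matrix.mul_apply, Fin.sum_univ_three]

theorem comm_w01 {A : I → G2} (hA : Lv m A) : Commute (mk m (hp A)) (mk m w01) := by
  unfold w01
  rw [map_mul, map_mul]
  exact ((comm01 hA 1).mul_right (comm10 hA (-1))).mul_right (comm01 hA 1)

theorem comm_w12 {A : I → G2} (hA : Lv m A) : Commute (mk m (hp A)) (mk m w12) := by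
  unfold w12
  rw [map_mul, map_mul]
  exact ((comm12 hA 1).mul_right (comm21 hA (-1))).mul_right (comm12 hA 1)

theorem mk_lo {A : I → G2} (hA : Lv m A) : mk m (fun t => lo (A t)) = H m A := by
  have key : (fun t => lo (A t)) * (w01 * w12) = (w01 * w12) * hp A := by
    funext t
    apply Subtype.ext
    show (lo (A t)).1 * ((w01 t).1 * (w12 t).1) = (w01 t).1 * (w12 t).1 * hm (A t).1
    rw [w01_val, w12_val]
    ext i j
    fin_cases i <;> fin_cases j <;> simp [lo, hm, Matrix.mul_apply, Fin.sum_univ_three]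
  have h := congrArg (mk m) key
  rw [map_mul, map_mul, map_mul, map_mul] at h
  have h2 : Commute (mk m (hp A)) (mk m w01 * mk m w12) := (comm_w01 hA).mul_right (comm_w12 hA)
  rw [← h2.eq] at h
  exact mul_right_cancel h

theorem mk_md {A : I → G2} (hA : Lv m A) : mk m (fun t => md (A t)) = H m A := by
  have key : w12 * (fun t => md (A t)) = hp A * w12 := by
    funext t
    apply Subtype.ext
    show (w12 t).1 * (md (A t)).1 = hm (A t).1 * (w12 t).1
    rw [w12_val]
    ext i j
    fin_cases i <;> fin_cases j <;> simp [md, hm, Matrix.mul_apply, Fin.sum_univ_three]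
  have h := congrArg (mk m) key
  rw [map_mul, map_mul, (comm_w12 hA).eq] at h
  exact mul_left_cancel h

theorem Rw_mul_right {a b c : I → ℤ} (h : Rw m a b) (h' : ∀ t, IsCoprime (a t) (c t)) :
    Rw m a (fun t => b t * c t) := fun t =>
  ⟨(h t).1, (h t).2.1.mul_right _, (h t).2.2.mul_right (h' t)⟩

theorem sy_mul_right {a b₁ b₂ : I → ℤ} (h₁ : Rw m a b₁) (h₂ : Rw m a b₂) :
    sy m a b₁ * sy m a b₂ = sy m a (fun t => b₁ t * b₂ t) := by
  obtain ⟨A, hA, hA0, hA1⟩ := exists_completion h₁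
  obtain ⟨B, hB, hB0, hB1⟩ := exists_completion h₂
  have hda : ∀ t, a t * (A t).1 1 1 - b₁ t * (A t).1 1 0 = 1 := by
    intro t
    rw [← hA0, ← hA1]
    exact G2det _
  have hdb : ∀ t, a t * (B t).1 1 1 - b₂ t * (B t).1 1 0 = 1 := by
    intro t
    rw [← hB0, ← hB1]
    exact G2det _
  let C : I → G2 := fun t => ⟨!![a t, b₁ t * b₂ t; -((A t).1 1 0 * (B t).1 1 0),
    (B t).1 1 1 - b₂ t * (B t).1 1 0 * (A t).1 1 1], by
      rw [Matrix.det_fin_two_of]
      linear_combination hdb t - b₂ t * (B t).1 1 0 * hda t⟩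
  have hC : Lv m C := by
    intro t
    refine ⟨(h₁ t).1, (h₁ t).2.1.mul_right _, ?_, ?_⟩
    · show m t ∣ -((A t).1 1 0 * (B t).1 1 0)
      exact ((hA t).2.2.1.mul_right _).neg_right
    · show m t ∣ (B t).1 1 1 - b₂ t * (B t).1 1 0 * (A t).1 1 1 - 1
      have e : (B t).1 1 1 - b₂ t * (B t).1 1 0 * (A t).1 1 1 - 1 =
        ((B t).1 1 1 - 1) - b₂ t * ((B t).1 1 0 * (A t).1 1 1) := by ring
      rw [e]
      exact (hB t).2.2.2.sub ((h₂ t).2.1.mul_right _)
  have key : hp A * (fun t => lo (B t)) * e01 (fun t => -b₁ t) =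
      e21 (fun t => (B t).1 1 0) * (fun t => md (C t)) * e10 (fun t => (A t).1 1 0) *
        e12 (fun t => (A t).1 1 1 * b₂ t) := by
    funext t
    apply Subtype.ext
    show hm (A t).1 * (lo (B t)).1 * (transvection _ _ : G3).1 =
      (transvection _ _ : G3).1 * (md (C t)).1 * (transvection _ _ : G3).1 *
        (transvection _ _ : G3).1
    rw [tr01, tr21, tr10, tr12]
    have h1 := hda t
    have h2 := hdb t
    ext i j
    fin_cases i <;> fin_cases j <;>
      simp [lo, md, hm, C, Matrix.mul_apply, Fin.sum_univ_three, hA0, hA1, hB0, hB1] <;>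
      first
      | ring1
      | linear_combination h1
  have h := congrArg (mk m) key
  rw [map_mul, map_mul, map_mul, map_mul, map_mul, mk_ef _ (fun t => (h₁ t).2.1.neg_right), mul_one,
    mk_ef _ (fun t => (hB t).2.2.1), one_mul, mk_ef _ (fun t => (hA t).2.2.1), mul_one,
    mk_ef _ (fun t => (h₂ t).2.1.mul_left _), mul_one, mk_lo hB, mk_md hC] at h
  rw [← sy_eq hA hA0 hA1, ← sy_eq hB hB0 hB1]
  exact h.trans (sy_eq hC (fun t => rfl) (fun t => rfl))

/-- the class of a matrix in terms of its second row -/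
theorem H_second {V : I → G2} (hV : Lv m V) : H m V = sy m (fun t => (V t).1 1 1)
    (fun t => -(V t).1 1 0) := by
  let W : I → G2 := fun t => ⟨!![(V t).1 1 1, -(V t).1 1 0; -(V t).1 0 1, (V t).1 0 0], by
    rw [Matrix.det_fin_two_of]
    have := G2det (V t)
    linarith⟩
  have hW : Lv m W := by
    intro t
    obtain ⟨h1, h2, h3, h4⟩ := hV t
    exact ⟨h4, h3.neg_right, h2.neg_right, h1⟩
  have key : w01 * hp V = hp W * w01 := by
    funext t
    apply Subtype.ext
    show (w01 t).1 * hm (V t).1 = hm (W t).1 * (w01 t).1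
    rw [w01_val]
    ext i j
    fin_cases i <;> fin_cases j <;> simp [W, hm, Matrix.mul_apply, Fin.sum_univ_three]
  have h := congrArg (mk m) key
  rw [map_mul, map_mul, ← (comm_w01 hV).eq] at h
  have h2 : H m V = H m W := mul_right_cancel h
  rw [h2]
  exact sy_eq hW (fun t => rfl) (fun t => rfl)

theorem sy_mul_left {a₁ a₂ b : I → ℤ} (h₁ : Rw m a₁ b) (h₂ : Rw m a₂ b) :
    sy m a₁ b * sy m a₂ b = sy m (fun t => a₁ t * a₂ t) b := by
  obtain ⟨A, hA, hA0, hA1⟩ := exists_completion h₁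
  obtain ⟨B, hB, hB0, hB1⟩ := exists_completion h₂
  have h₃ : Rw m (fun t => a₁ t * a₂ t) b := by
    intro t
    refine ⟨?_, (h₁ t).2.1, (h₁ t).2.2.mul_left (h₂ t).2.2⟩
    have e : a₁ t * a₂ t - 1 = (a₁ t - 1) * a₂ t + (a₂ t - 1) := by ring
    show m t ∣ a₁ t * a₂ t - 1
    rw [e]
    exact ((h₁ t).1.mul_right _).add (h₂ t).1
  obtain ⟨C, hC, hC0, hC1⟩ := exists_completion h₃
  have hda : ∀ t, a₁ t * (A t).1 1 1 - b t * (A t).1 1 0 = 1 := by
    intro t
    rw [← hA0, ← hA1]
    exact G2det _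
  have hdb : ∀ t, a₂ t * (B t).1 1 1 - b t * (B t).1 1 0 = 1 := by
    intro t
    rw [← hB0, ← hB1]
    exact G2det _
  have hdc : ∀ t, a₁ t * a₂ t * (C t).1 1 1 - b t * (C t).1 1 0 = 1 := by
    intro t
    rw [← hC0, ← hC1]
    exact G2det _
  let V : I → G2 := fun t => ⟨!![(A t).1 1 1 * a₁ t * a₂ t -
      ((A t).1 1 0 * a₂ t + a₁ t * (B t).1 1 0) * b t, a₁ t * (B t).1 1 1 - 1;
      -((B t).1 1 0 * b t), (B t).1 1 1], by
        rw [Matrix.det_fin_two_of]
        linear_combination (a₂ t * (B t).1 1 1) * hda t + hdb t⟩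
  have hV : Lv m V := by
    intro t
    obtain ⟨p1, p2, p3, p4⟩ := hA t
    obtain ⟨q1, q2, q3, q4⟩ := hB t
    have r1 := (h₁ t).1
    have r2 := (h₂ t).1
    have r3 := (h₁ t).2.1
    refine ⟨?_, ?_, ?_, ?_⟩
    · show m t ∣ (A t).1 1 1 * a₁ t * a₂ t -
        ((A t).1 1 0 * a₂ t + a₁ t * (B t).1 1 0) * b t - 1
      have e : (A t).1 1 1 * a₁ t * a₂ t -
        ((A t).1 1 0 * a₂ t + a₁ t * (B t).1 1 0) * b t - 1 =
        ((A t).1 1 1 - 1) * (a₁ t * a₂ t) + (a₁ t - 1) * a₂ t + (a₂ t - 1) -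
        ((A t).1 1 0 * a₂ t + a₁ t * (B t).1 1 0) * b t := by ring
      rw [e]
      exact (((p4.mul_right _).add (r1.mul_right _)).add r2).sub (r3.mul_left _)
    · show m t ∣ a₁ t * (B t).1 1 1 - 1
      have e : a₁ t * (B t).1 1 1 - 1 = (a₁ t - 1) * (B t).1 1 1 + ((B t).1 1 1 - 1) := by ring
      rw [e]
      exact (r1.mul_right _).add q4
    · show m t ∣ -((B t).1 1 0 * b t)
      exact (r3.mul_left _).neg_right
    · exact q4
  have key : e12 a₁ * hp A * (fun t => md (B t)) * e12 (fun t => -a₁ t) =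
      e10 (fun t => ((A t).1 1 0 * a₂ t + a₁ t * (B t).1 1 0) * (C t).1 1 1 -
        (A t).1 1 1 * (C t).1 1 0) * e20 (fun t => (B t).1 1 0 * (C t).1 1 1) *
      (fun t => lo (V t)) * hp C := by
    funext t
    apply Subtype.ext
    show (transvection _ _ : G3).1 * hm (A t).1 * (md (B t)).1 * (transvection _ _ : G3).1 =
      (transvection _ _ : G3).1 * (transvection _ _ : G3).1 * (lo (V t)).1 * hm (C t).1
    rw [tr12, tr12, tr10, tr20]
    have h1 := hda t
    have h2 := hdb t
    have h3 := hdc t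
    ext i j
    fin_cases i <;> fin_cases j <;>
      simp [lo, md, hm, V, Matrix.mul_apply, Fin.sum_univ_three, hA0, hA1, hB0, hB1, hC0, hC1]
    all_goals first
      | ring1
      | linear_combination (-((A t).1 1 0 * a₂ t + a₁ t * (B t).1 1 0)) * h3
      | linear_combination (-(A t).1 1 1) * h3
      | linear_combination -h1
      | linear_combination (-(B t).1 1 0) * h3
  have h := congrArg (mk m) key
  have hx : ∀ t, m t ∣ ((A t).1 1 0 * a₂ t + a₁ t * (B t).1 1 0) * (C t).1 1 1 -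
      (A t).1 1 1 * (C t).1 1 0 := by
    intro t
    exact ((((hA t).2.2.1.mul_right _).add ((hB t).2.2.1.mul_left _)).mul_right _).sub
      ((hC t).2.2.1.mul_left _)
  rw [map_mul, map_mul, map_mul, map_mul, map_mul, map_mul, mk_ef _ hx, one_mul,
    mk_ef _ (fun t => (hB t).2.2.1.mul_right _), one_mul, mk_lo hV, mk_md hB] at h
  have hneg : mk m (e12 (fun t => -a₁ t)) = (mk m (e12 a₁))⁻¹ := by
    rw [eq_inv_iff_mul_eq_one, ← map_mul, ← ef_add]
    have : (fun t => -a₁ t) + a₁ = 0 := by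
      funext t
      simp
    rw [this, ef_zero, map_one]
  have hcA : Commute (H m A) (mk m (e12 a₁)) := comm12 hA a₁
  have hcB : Commute (H m B) (mk m (e12 a₁)) := comm12 hB a₁
  have h4 : H m A * H m B = H m V * H m C := by
    have h5 : mk m (e12 a₁) * H m A * H m B * mk m (e12 fun t => -a₁ t) = H m V * H m C := h
    rw [hneg, ← hcA.eq, mul_assoc (H m A), ← hcB.eq, ← mul_assoc, mul_inv_cancel_right] at h5
    exact h5
  have h6 : H m V = 1 := by
    have hd : Rw m (fun t => (B t).1 1 1) (fun t => (B t).1 1 1 - 1) := by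
      intro t
      exact ⟨(hB t).2.2.2, (hB t).2.2.2, ⟨1, -1, by ring⟩⟩
    have hs : ∀ t, ∃ s, a₂ t - 1 = m t * s := fun t => (h₂ t).1
    choose s hs using hs
    rw [H_second hV]
    have h7 := sy_add_right hd s (fun t => -(V t).1 1 0) (fun t => by
      show -(-((B t).1 1 0 * b t)) = _
      linear_combination (-1 : ℤ) * hdb t + (B t).1 1 1 * hs t)
    have h8 : (fun t => (V t).1 1 1) = fun t => (B t).1 1 1 := rfl
    rw [h8, h7]
    exact sy_of_dvd hd (fun t => dvd_refl _)
  rw [← sy_eq hA hA0 hA1, ← sy_eq hB hB0 hB1, h4, h6, one_mul]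
  exact sy_eq hC hC0 hC1

/-- splitting off a factor which need not be divisible by the level -/
theorem sy_split {a b c : I → ℤ} (h : Rw m a b) (hc : ∀ t, IsCoprime (a t) (c t)) :
    sy m a (fun t => b t * c t) = sy m a b * sy m a (fun t => m t * c t) := by
  have hz : Rw m a (fun t => c t * (1 - a t)) := by
    intro t
    refine ⟨(h t).1, ?_, (hc t).mul_right ⟨1, 1, by ring⟩⟩
    have : (1 - a t) = -(a t - 1) := by ring
    show m t ∣ c t * (1 - a t)
    rw [this]
    exact ((h t).1.neg_right).mul_left _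
  have h1 : Rw m a (fun t => 1 - a t) := by
    intro t
    refine ⟨(h t).1, ?_, ⟨1, 1, by ring⟩⟩
    have : (1 - a t) = -(a t - 1) := by ring
    show m t ∣ 1 - a t
    rw [this]
    exact (h t).1.neg_right
  have gen : ∀ b' : I → ℤ, Rw m a b' →
      sy m a (fun t => b' t * c t) = sy m a b' * sy m a (fun t => c t * (1 - a t)) := by
    intro b' hb'
    have e1 := sy_mul_right hb' hz
    have e2 := sy_mul_right (Rw_mul_right hb' hc) h1
    have e3 : sy m a (fun t => 1 - a t) = 1 := sy_one_sub h1 (fun t => rfl)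
    rw [e3, mul_one] at e2
    rw [e1, e2]
    congr 1
    funext t
    ring
  have hm : Rw m a m := by
    intro t
    refine ⟨(h t).1, dvd_refl _, ?_⟩
    obtain ⟨k, hk⟩ := (h t).1
    exact ⟨1, -k, by linarith⟩
  rw [gen b h, gen m hm, sy_of_dvd hm (fun t => (h t).1), one_mul]

theorem sy_neg {a b : I → ℤ} (h : Rw m a b) : sy m a (fun t => -b t) = sy m a b := by
  have h1 := sy_split h (c := fun _ => -1) (fun t => isCoprime_one_right.neg_right)
  have hm : Rw m a (fun t => m t * -1) := by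
    intro t
    refine ⟨(h t).1, dvd_mul_right _ _, ?_⟩
    obtain ⟨k, hk⟩ := (h t).1
    exact ⟨1, k, by linarith⟩
  have h2 : sy m a (fun t => m t * -1) = 1 := by
    refine sy_of_dvd hm (fun t => ?_)
    rw [mul_neg_one]
    exact (neg_dvd).2 (h t).1
  rw [h2, mul_one] at h1
  rw [← h1]
  congr 1
  funext t
  ring

/-- powers, pointwise exponents -/
theorem H_pow {A : I → G2} (hA : Lv m A) (k : I → ℕ) :
    H m (fun t => A t ^ (2 * k t)) =
      sy m (fun t => (A t).1 0 0 ^ (2 * k t)) (fun t => (A t).1 0 1) := by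
  choose f g h1 h2 h3 h4 h5 using fun t => PowAux.pow_form (A t).1 (A t).2 (k t)
  have hcoe : ∀ t, ((A t ^ k t : G2)).1 = (A t).1 ^ k t := fun t => by
    rw [Matrix.SpecialLinearGroup.coe_pow]
  have hR := Lv_row hA
  -- the row of the power
  have hpw : Rw m (fun t => (A t).1 0 0 ^ k t) (fun t => (A t).1 0 1) := by
    intro t
    refine ⟨?_, (hR t).2.1, (hR t).2.2.pow_left⟩
    show m t ∣ (A t).1 0 0 ^ k t - 1
    have := sub_dvd_pow_sub_pow ((A t).1 0 0) 1 (k t)
    rw [one_pow] at this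
    exact (hA t).1.trans this
  have hal : ∀ t, m t ∣ (((A t).1 ^ k t) 0 0) - 1 := by
    intro t
    have e : ((A t).1 ^ k t) 0 0 - 1 = (((A t).1 ^ k t) 0 0 - (A t).1 0 0 ^ k t) +
      ((A t).1 0 0 ^ k t - 1) := by ring
    rw [e]
    exact ((hR t).2.1.trans (h5 t)).add (hpw t).1
  let B : I → G2 := fun t => A t ^ k t
  have hB : Lv m B := by
    intro t
    show m t ∣ ((A t ^ k t : G2)).1 0 0 - 1 ∧ m t ∣ ((A t ^ k t : G2)).1 0 1 ∧
      m t ∣ ((A t ^ k t : G2)).1 1 0 ∧ m t ∣ ((A t ^ k t : G2)).1 1 1 - 1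
    rw [hcoe]
    refine ⟨hal t, ?_, ?_, ?_⟩
    · rw [h2]; exact (hA t).2.1.mul_left _
    · rw [h3]; exact (hA t).2.2.1.mul_left _
    · have e : ((A t).1 ^ k t) 1 1 - 1 = (((A t).1 ^ k t) 0 0 - 1) +
        g t * (((A t).1 1 1 - 1) - ((A t).1 0 0 - 1)) := by
        rw [h4, h1]; ring
      rw [e]
      exact (hal t).add (((hA t).2.2.2.sub (hA t).1).mul_left _)
  have hdetB : ∀ t, (f t + g t * (A t).1 0 0) * (f t + g t * (A t).1 1 1) -
      (g t * (A t).1 0 1) * (g t * (A t).1 1 0) = 1 := by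
    intro t
    have := G2det (B t)
    change ((A t ^ k t : G2)).1 0 0 * ((A t ^ k t : G2)).1 1 1 -
      ((A t ^ k t : G2)).1 0 1 * ((A t ^ k t : G2)).1 1 0 = 1 at this
    rw [hcoe, h1, h2, h3, h4] at this
    exact this
  -- coprimality
  have hcg : ∀ t, IsCoprime (f t + g t * (A t).1 0 0) (g t) := by
    intro t
    exact ⟨f t + g t * (A t).1 1 1, -((A t).1 0 1) * (g t * (A t).1 1 0), by
      linear_combination hdetB t⟩
  have hcb : ∀ t, IsCoprime (f t + g t * (A t).1 0 0) ((A t).1 0 1) := by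
    intro t
    exact ⟨f t + g t * (A t).1 1 1, -(g t) * (g t * (A t).1 1 0), by
      linear_combination hdetB t⟩
  have hRal : Rw m (fun t => f t + g t * (A t).1 0 0) (fun t => (A t).1 0 1) := by
    intro t
    refine ⟨?_, (hA t).2.1, hcb t⟩
    have := hal t
    rw [h1] at this
    exact this
  have hRg : Rw m (fun t => f t + g t * (A t).1 0 0) (fun t => m t * g t) := by
    intro t
    refine ⟨(hRal t).1, dvd_mul_right _ _, ?_⟩
    refine IsCoprime.mul_right ?_ (hcg t)
    obtain ⟨z, hz⟩ := (hRal t).1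
    exact ⟨1, -z, by linarith⟩
  have hRh : Rw m (fun t => f t + g t) (fun t => m t * g t) := by
    refine Rw_congr hRg (fun t => ?_)
    obtain ⟨z, hz⟩ := (hA t).1
    exact ⟨-z, by linear_combination (-(g t)) * hz⟩
  have e1 : H m B = sy m (fun t => (A t).1 0 0 ^ k t) (fun t => (A t).1 0 1) *
      sy m (fun t => f t + g t) (fun t => m t * g t) := by
    have e2 : H m B = sy m (fun t => f t + g t * (A t).1 0 0)
        (fun t => (A t).1 0 1 * g t) := by
      refine sy_eq hB (fun t => ?_) (fun t => ?_)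
      · show ((A t ^ k t : G2)).1 0 0 = _
        rw [hcoe, h1]
      · show ((A t ^ k t : G2)).1 0 1 = _
        rw [hcoe, h2, mul_comm]
    rw [e2, sy_split hRal hcg]
    congr 1
    · refine sy_congr_left hpw (fun t => ?_)
      have := h5 t
      rw [h1] at this
      exact this
    · refine (sy_congr_left hRg (fun t => ?_)).symm
      obtain ⟨z, hz⟩ := (hA t).1
      exact ⟨-z, by linear_combination (-(g t)) * hz⟩
  have e3 : sy m (fun t => f t + g t) (fun t => m t * g t) *
      sy m (fun t => f t + g t) (fun t => m t * g t) = 1 := by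
    rw [sy_mul_left hRh hRh]
    refine sy_of_dvd ?_ (fun t => ?_)
    · intro t
      obtain ⟨k1, k2, k3⟩ := hRh t
      refine ⟨?_, k2, k3.mul_left k3⟩
      have e : (f t + g t) * (f t + g t) - 1 = (f t + g t - 1) * (f t + g t + 1) := by ring
      show m t ∣ (f t + g t) * (f t + g t) - 1
      rw [e]
      exact k1.mul_right _
    · obtain ⟨z, hz⟩ := (hA t).1
      obtain ⟨y, hy⟩ := (hA t).2.2.2
      refine ⟨-(f t) * (z + y), ?_⟩
      have hd := hdetB t
      have hd1 := G2det (A t)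
      linear_combination hd - (g t * g t) * hd1 - f t * g t * hz - f t * g t * hy
  have e4 : (fun t => A t ^ (2 * k t)) = B * B := by
    funext t
    show A t ^ (2 * k t) = A t ^ k t * A t ^ k t
    rw [two_mul, pow_add]
  rw [e4, H_mul, e1]
  have hc := sy_comm hpw hRh
  calc _ = (sy m (fun t => (A t).1 0 0 ^ k t) (fun t => (A t).1 0 1) *
      sy m (fun t => (A t).1 0 0 ^ k t) (fun t => (A t).1 0 1)) *
      (sy m (fun t => f t + g t) (fun t => m t * g t) *
      sy m (fun t => f t + g t) (fun t => m t * g t)) := by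
        rw [mul_assoc, ← mul_assoc (sy m (fun t => f t + g t) (fun t => m t * g t)), ← hc.eq]
        simp only [mul_assoc]
    _ = _ := by
        rw [e3, mul_one, sy_mul_left hpw hpw]
        congr 1
        funext t
        rw [two_mul, pow_add]

end

end Pool.Agent.IntComm.Rel
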