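import Pool.Agent.Work.MP_584b0c_al.Rel.Gen

set_option autoImplicit false

/-! Relative bounded generation: from `SL_k` to `SL_(k+1)`. -/

namespace Pool.Agent.IntComm.Rel

open Matrix Matrix.SpecialLinearGroup

section emb

/-- `diag(A, 1)` -/
def embM {k : ℕ} (A : Matrix (Fin k) (Fin k) ℤ) : Matrix (Fin (k + 1)) (Fin (k + 1)) ℤ :=
  Matrix.reindex finSumFinEquiv finSumFinEquiv (Matrix.fromBlocks A 0 0 (1 : Matrix (Fin 1) (Fin 1) ℤ))

theorem embM_mul {k : ℕ} (A B : Matrix (Fin k) (Fin k) ℤ) : embM (A * B) = embM A * embM B := by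
  unfold embM
  rw [Matrix.reindex_apply, Matrix.reindex_apply, Matrix.reindex_apply,
    Matrix.submatrix_mul_equiv, Matrix.fromBlocks_multiply]
  simp

theorem embM_one {k : ℕ} : embM (1 : Matrix (Fin k) (Fin k) ℤ) = 1 := by
  unfold embM
  rw [Matrix.fromBlocks_one, Matrix.reindex_apply, Matrix.submatrix_one_equiv]

theorem embM_det {k : ℕ} (A : Matrix (Fin k) (Fin k) ℤ) : (embM A).det = A.det := by
  unfold embM
  rw [Matrix.det_reindex_self, Matrix.det_fromBlocks_zero₂₁, Matrix.det_one, mul_one]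

theorem embM_cc {k : ℕ} (A : Matrix (Fin k) (Fin k) ℤ) (i j : Fin k) :
    embM A i.castSucc j.castSucc = A i j := by
  unfold embM
  rw [Matrix.reindex_apply, Matrix.submatrix_apply]
  have h : ∀ i : Fin k, finSumFinEquiv.symm (i.castSucc : Fin (k + 1)) =
    (Sum.inl i : Fin k ⊕ Fin 1) := fun i => finSumFinEquiv_symm_apply_castAdd i
  rw [h, h, Matrix.fromBlocks_apply₁₁]

theorem embM_cl {k : ℕ} (A : Matrix (Fin k) (Fin k) ℤ) (i : Fin k) :
    embM A i.castSucc (Fin.last k) = 0 := by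
  unfold embM
  rw [Matrix.reindex_apply, Matrix.submatrix_apply]
  have h : ∀ i : Fin k, finSumFinEquiv.symm (i.castSucc : Fin (k + 1)) =
    (Sum.inl i : Fin k ⊕ Fin 1) := fun i => finSumFinEquiv_symm_apply_castAdd i
  have h' : finSumFinEquiv.symm (Fin.last k : Fin (k + 1)) =
    (Sum.inr 0 : Fin k ⊕ Fin 1) := finSumFinEquiv_symm_last
  rw [h, h', Matrix.fromBlocks_apply₁₂]
  rfl

theorem embM_lc {k : ℕ} (A : Matrix (Fin k) (Fin k) ℤ) (i : Fin k) :
    embM A (Fin.last k) i.castSucc = 0 := by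
  unfold embM
  rw [Matrix.reindex_apply, Matrix.submatrix_apply]
  have h : ∀ i : Fin k, finSumFinEquiv.symm (i.castSucc : Fin (k + 1)) =
    (Sum.inl i : Fin k ⊕ Fin 1) := fun i => finSumFinEquiv_symm_apply_castAdd i
  have h' : finSumFinEquiv.symm (Fin.last k : Fin (k + 1)) =
    (Sum.inr 0 : Fin k ⊕ Fin 1) := finSumFinEquiv_symm_last
  rw [h, h', Matrix.fromBlocks_apply₂₁]
  rfl

theorem embM_ll {k : ℕ} (A : Matrix (Fin k) (Fin k) ℤ) :
    embM A (Fin.last k) (Fin.last k) = 1 := by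
  unfold embM
  rw [Matrix.reindex_apply, Matrix.submatrix_apply]
  have h' : finSumFinEquiv.symm (Fin.last k : Fin (k + 1)) =
    (Sum.inr 0 : Fin k ⊕ Fin 1) := finSumFinEquiv_symm_last
  rw [h', Matrix.fromBlocks_apply₂₂]
  rfl

/-- `diag(A, 1)` -/
def emb (k : ℕ) : SpecialLinearGroup (Fin k) ℤ →* SpecialLinearGroup (Fin (k + 1)) ℤ where
  toFun A := ⟨embM A.1, by rw [embM_det]; exact A.2⟩
  map_one' := Subtype.ext embM_one
  map_mul' A B := Subtype.ext (embM_mul A.1 B.1)

theorem emb_transvection {k : ℕ} {i j : Fin k} (h : i ≠ j) (h' : i.castSucc ≠ j.castSucc) (x : ℤ) :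
    emb k (transvection h x) = transvection h' x := by
  apply Subtype.ext
  show embM (transvection h x : SpecialLinearGroup (Fin k) ℤ).1 = _
  ext a b
  rw [transvection_coe, transvection_coe]
  refine Fin.lastCases ?_ (fun a => ?_) a <;> refine Fin.lastCases ?_ (fun b => ?_) b
  · rw [embM_ll]
    simp [Fin.castSucc_ne_last]
  · rw [embM_lc]
    simp [Fin.castSucc_ne_last, (Fin.castSucc_ne_last _).symm]
  · rw [embM_cl]
    simp [Fin.castSucc_ne_last]
  · rw [embM_cc]
    simp [Matrix.single_apply, Matrix.one_apply]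

theorem emb_CE {k : ℕ} {m : ℤ} (y : SpecialLinearGroup (Fin k) ℤ) (hy : y ∈ CE (Fin k) m) :
    emb k y ∈ CE (Fin (k + 1)) m := by
  obtain ⟨g, i, j, h, x, rfl⟩ := hy
  have h' : i.castSucc ≠ j.castSucc := fun e => h (Fin.castSucc_injective k e)
  exact ⟨emb k g, i.castSucc, j.castSucc, h', x, by
    rw [map_mul, map_mul, map_inv, emb_transvection h h']⟩

theorem emb_two (A : G2) : emb 2 A = hat A := by
  apply Subtype.ext
  show embM A.1 = hm A.1
  unfold hm
  ext i j
  refine Fin.lastCases ?_ (fun a => ?_) i <;> refine Fin.lastCases ?_ (fun b => ?_) j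
  · rw [embM_ll]; rfl
  · rw [embM_lc]; fin_cases b <;> rfl
  · rw [embM_cl]; fin_cases a <;> rfl
  · rw [embM_cc]; fin_cases a <;> fin_cases b <;> rfl

end emb

section step

theorem RU_entries {n : Type} [Fintype n] [DecidableEq n] {M : SpecialLinearGroup n ℤ} {i₀ : n}
    {y : n → ℤ} (h : ∀ r : n → ℤ, M.1 *ᵥ r = r + r i₀ • y) (r : n → ℤ) :
    r ᵥ* M.1 = r + Pi.single i₀ (∑ j, r j * y j) := by
  have hM : ∀ i j, M.1 i j = (if i = j then 1 else 0) + (if i₀ = j then y i else 0) := by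
    intro i j
    have h1 := congrFun (h (Pi.single j 1)) i
    rw [Matrix.mulVec_single_one] at h1
    simp only [Matrix.col_apply, Pi.add_apply, Pi.smul_apply, smul_eq_mul, Pi.single_apply] at h1
    rw [h1]
    congr 1
    split_ifs <;> simp
  ext j
  simp only [Matrix.vecMul, dotProduct, hM, mul_add, Finset.sum_add_distrib, Pi.add_apply,
    Pi.single_apply, mul_ite, mul_one, mul_zero, Finset.sum_ite_eq', Finset.mem_univ, if_true]
  congr 1
  by_cases hj : j = i₀
  · subst hj
    simp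
  · simp [hj, Ne.symm hj]

/-- the last row -/
def lr {k : ℕ} (w : SpecialLinearGroup (Fin (k + 1)) ℤ) : Fin (k + 1) → ℤ := w.1 (Fin.last k)

theorem lr_mul {k : ℕ} (w v : SpecialLinearGroup (Fin (k + 1)) ℤ) : lr (w * v) = lr w ᵥ* v.1 := by
  show (w.1 * v.1) (Fin.last k) = _
  ext j
  rfl

theorem step (hSR : ClaimSR) (k : ℕ) (m : ℤ) (w : SpecialLinearGroup (Fin (k + 2 + 1)) ℤ)
    (hw : LvN m w) : ∃ w' : SpecialLinearGroup (Fin (k + 2)) ℤ, LvN m w' ∧
      ∀ N : ℕ, Len (CE (Fin (k + 2 + 1)) m) N (emb (k + 2) w') →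
        Len (CE (Fin (k + 2 + 1)) m) (N + 4 * (k + 3)) w := by
  have hcard : Fintype.card (Fin (k + 2 + 1)) = k + 3 := Fintype.card_fin _
  have hlast : ∀ v : SpecialLinearGroup (Fin (k + 2 + 1)) ℤ, LvN m v →
      m ∣ lr v (Fin.last _) - 1 := by
    intro v hv
    have := hv (Fin.last _) (Fin.last _)
    simpa [lr] using this
  have hoth : ∀ v : SpecialLinearGroup (Fin (k + 2 + 1)) ℤ, LvN m v → ∀ j, j ≠ Fin.last _ →
      m ∣ lr v j := by
    intro v hv j hj
    have := hv (Fin.last _) j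
    rw [Matrix.one_apply_ne (Ne.symm hj), sub_zero] at this
    exact this
  have h0l : (0 : Fin (k + 2 + 1)) ≠ Fin.last _ := by
    intro h
    have := congrArg Fin.val h
    simp at this
  -- unimodularity of the last row
  obtain ⟨u, hu⟩ : ∃ u : Fin (k + 2 + 1) → ℤ, ∑ j, lr w j * u j = 1 := by
    refine ⟨fun j => (w⁻¹).1 j (Fin.last _), ?_⟩
    have h1 : (w * w⁻¹).1 (Fin.last _) (Fin.last _) = 1 := by
      rw [mul_inv_cancel]
      exact Matrix.one_apply_eq _
    exact h1
  -- stable range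
  obtain ⟨q, hq⟩ := hlast w hw
  obtain ⟨z, y, hzy⟩ := hSR (k + 2) (by omega) (fun i => lr w i.succ) (m * lr w 0) (by
    refine ⟨fun i => u i.succ + (if i = Fin.last _ then lr w 0 * u 0 else 0), -q * u 0, ?_⟩
    rw [Fin.sum_univ_succ] at hu
    simp only [mul_add, Finset.sum_add_distrib, mul_ite, mul_zero, Finset.sum_ite_eq',
      Finset.mem_univ, if_true, Fin.succ_last]
    have hq' : lr w (Fin.last (k + 2)) = 1 + m * q := by linarith
    rw [hq']
    linear_combination hu)
  obtain ⟨M1, hM1, hM1'⟩ := exRU (m := m) (0 : Fin (k + 2 + 1)) (Fin.cons 0 fun i => m * z i)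
    rfl (fun j => by
      refine Fin.cases ?_ (fun i => ?_) j
      · exact dvd_zero m
      · exact dvd_mul_right m _)
  have hw1 : LvN m (w * M1) := hw.mul (LvN_Len hM1)
  have hr1 : ∀ i : Fin (k + 2), lr (w * M1) i.succ = lr w i.succ + m * lr w 0 * z i := by
    intro i
    rw [lr_mul, hM1', Pi.add_apply, Pi.smul_apply, smul_eq_mul, Fin.cons_succ]
    ring
  have hr1' : ∑ i : Fin (k + 2), lr (w * M1) i.succ * y i = 1 := by
    rw [← hzy]
    exact Finset.sum_congr rfl fun i _ => by rw [hr1]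
  -- second step
  set κ : ℤ := 1 - lr (w * M1) (Fin.last _) - lr (w * M1) 0 with hκ
  have hκm : m ∣ κ := by
    have e : κ = -(lr (w * M1) (Fin.last _) - 1) - lr (w * M1) 0 := by rw [hκ]; ring
    rw [e]
    exact (hlast _ hw1).neg_right.sub (hoth _ hw1 0 h0l)
  obtain ⟨M2, hM2, hM2'⟩ := exCU (m := m) (0 : Fin (k + 2 + 1)) (Fin.cons 0 fun i => κ * y i)
    rfl (fun j => by
      refine Fin.cases ?_ (fun i => ?_) j
      · exact dvd_zero m
      · exact hκm.mul_right _)
  have hw2 : LvN m (w * M1 * M2) := hw1.mul (LvN_Len hM2)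
  have hr2 : lr (w * M1 * M2) = lr (w * M1) + Pi.single 0 κ := by
    rw [lr_mul, RU_entries hM2']
    congr 2
    rw [Fin.sum_univ_succ, Fin.cons_zero, mul_zero, zero_add]
    simp only [Fin.cons_succ]
    calc ∑ i : Fin (k + 2), lr (w * M1) i.succ * (κ * y i) =
        κ * ∑ i : Fin (k + 2), lr (w * M1) i.succ * y i := by
          rw [Finset.mul_sum]
          exact Finset.sum_congr rfl fun i _ => by ring
      _ = κ := by rw [hr1', mul_one]
  have hr2a : lr (w * M1 * M2) 0 = 1 - lr (w * M1) (Fin.last _) := by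
    rw [hr2, Pi.add_apply, Pi.single_eq_same, hκ]
    ring
  have hr2b : lr (w * M1 * M2) (Fin.last _) = lr (w * M1) (Fin.last _) := by
    rw [hr2, Pi.add_apply, Pi.single_eq_of_ne (Ne.symm h0l), add_zero]
  -- conjugation
  set g : SpecialLinearGroup (Fin (k + 2 + 1)) ℤ := transvection h0l 1 with hg
  have hw3 : LvN m (g⁻¹ * (w * M1 * M2) * g) := by
    have := hw2.conj g⁻¹
    rwa [inv_inv] at this
  have hr3 : lr (g⁻¹ * (w * M1 * M2) * g) (Fin.last _) = 1 := by
    have e1 : lr (g⁻¹ * (w * M1 * M2)) = lr (w * M1 * M2) := by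
      rw [lr_mul]
      have e2 : lr g⁻¹ = Pi.single (Fin.last _) 1 := by
        rw [hg, transvection_inv]
        ext j
        show (transvection h0l (-1) : SpecialLinearGroup (Fin (k + 2 + 1)) ℤ).1 (Fin.last _) j = _
        rw [transvection_coe, Matrix.add_apply, Matrix.single_apply, if_neg (fun h => h0l h.1),
          add_zero, Matrix.one_apply, Pi.single_apply]
        by_cases hj : j = Fin.last _
        · rw [if_pos hj.symm, if_pos hj]
        · rw [if_neg (Ne.symm hj), if_neg hj]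
      rw [e2, Matrix.single_one_vecMul]
      rfl
    rw [lr_mul, e1, hg, transvection_coe, Matrix.vecMul_add, Matrix.vecMul_one, Pi.add_apply]
    have e3 : (lr (w * M1 * M2) ᵥ* Matrix.single (0 : Fin (k + 2 + 1)) (Fin.last (k + 2)) (1 : ℤ))
        (Fin.last (k + 2)) = lr (w * M1 * M2) 0 := by
      simp [Matrix.vecMul, dotProduct, Matrix.single_apply]
    rw [e3, hr2a, hr2b]
    ring
  -- clearing the last row
  set w3 := g⁻¹ * (w * M1 * M2) * g with hw3def
  obtain ⟨M4, hM4, hM4'⟩ := exRU (m := m) (Fin.last (k + 2))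
    (fun j => if j = Fin.last _ then 0 else -lr w3 j) (by simp) (fun j => by
      by_cases hj : j = Fin.last _
      · simp [hj]
      · simp only [hj, if_false]
        exact (hoth _ hw3 j hj).neg_right)
  have hw4 : LvN m (w3 * M4) := hw3.mul (LvN_Len hM4)
  have hr4 : lr (w3 * M4) = Pi.single (Fin.last _) 1 := by
    rw [lr_mul, hM4', hr3, one_smul]
    ext j
    by_cases hj : j = Fin.last _
    · subst hj
      simp [hr3]
    · simp [hj]
  -- clearing the last column
  obtain ⟨S, hS, hS'⟩ := exCU (m := m) (Fin.last (k + 2))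
    (fun j => if j = Fin.last _ then 0 else (w3 * M4).1 j (Fin.last _)) (by simp) (fun j => by
      by_cases hj : j = Fin.last _
      · simp [hj]
      · simp only [hj, if_false]
        have := hw4 j (Fin.last _)
        rwa [Matrix.one_apply_ne hj, sub_zero] at this)
  let A : Matrix (Fin (k + 2)) (Fin (k + 2)) ℤ := fun i j => (w3 * M4).1 i.castSucc j.castSucc
  have hSA : (w3 * M4).1 = S.1 * embM A := by
    ext i j
    have e1 : (S.1 * embM A) i j = (S.1 *ᵥ fun l => embM A l j) i := rfl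
    rw [e1, hS']
    have hrow : ∀ j, (w3 * M4).1 (Fin.last _) j =
        (Pi.single (Fin.last _) 1 : Fin (k + 2 + 1) → ℤ) j := fun j => congrFun hr4 j
    refine Fin.lastCases ?_ (fun j => ?_) j
    · simp only [embM_ll, one_smul, Pi.add_apply]
      refine Fin.lastCases ?_ (fun i => ?_) i
      · rw [embM_ll, hrow]; simp
      · rw [embM_cl]
        simp [(Fin.castSucc_ne_last i)]
    · simp only [embM_lc, zero_smul, Pi.add_apply, Pi.zero_apply, add_zero]
      refine Fin.lastCases ?_ (fun i => ?_) i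
      · rw [embM_lc, hrow, Pi.single_eq_of_ne (Fin.castSucc_ne_last j)]
      · rw [embM_cc]
  have hdetA : A.det = 1 := by
    have h1 := congrArg Matrix.det hSA
    rw [Matrix.det_mul, embM_det, S.2, one_mul] at h1
    rw [← h1]
    exact (w3 * M4).2
  refine ⟨⟨A, hdetA⟩, ?_, ?_⟩
  · intro i j
    have := hw4 i.castSucc j.castSucc
    have e : (1 : Matrix (Fin (k + 2 + 1)) (Fin (k + 2 + 1)) ℤ) i.castSucc j.castSucc =
        (1 : Matrix (Fin (k + 2)) (Fin (k + 2)) ℤ) i j := by
      simp [Matrix.one_apply]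
    rw [e] at this
    exact this
  · intro N hN
    have h4 : w3 * M4 = S * emb (k + 2) ⟨A, hdetA⟩ := Subtype.ext hSA
    have h5 : Len (CE (Fin (k + 2 + 1)) m) (k + 3 + N + (k + 3)) w3 := by
      have : w3 = S * emb (k + 2) ⟨A, hdetA⟩ * M4⁻¹ := by
        rw [← h4]
        group
      rw [this]
      rw [hcard] at hS hM4
      exact (hS.mul hN).mul (hM4.inv CE_inv)
    have h6 : Len (CE (Fin (k + 2 + 1)) m) (k + 3 + N + (k + 3)) (w * M1 * M2) := by
      have : w * M1 * M2 = g * w3 * g⁻¹ := by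
        rw [hw3def]
        group
      rw [this]
      exact h5.conj CE_conj g
    have h7 : w = (w * M1 * M2) * M2⁻¹ * M1⁻¹ := by group
    rw [h7]
    rw [hcard] at hM1 hM2
    exact ((h6.mul (hM2.inv CE_inv)).mul (hM1.inv CE_inv)).mono (by omega)

end step

/-- **Relative bounded generation, uniform in the level.** For every `J = k + 3 ≥ 3` there is a
constant `K` such that for every level `m ≠ 0` every matrix of `SL_J(ℤ)` congruent to one modulo `m`
is a product of at most `K` conjugates of elementary matrices of level `m`. -/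
theorem relCK (k : ℕ) : ∃ K : ℕ, ∀ m : ℤ, m ≠ 0 → ∀ w : SpecialLinearGroup (Fin (k + 3)) ℤ,
    LvN m w → Len (CE (Fin (k + 3)) m) K w := by
  induction k with
  | zero =>
    obtain ⟨K, hK⟩ := hat_bounded
    refine ⟨K + 4 * (0 + 3), fun m hm w hw => ?_⟩
    obtain ⟨w', h1, h2⟩ := step claimSR 0 m w hw
    refine h2 K ?_
    have e : emb (0 + 2) w' = hat w' := emb_two w'
    rw [e]
    refine hK m hm w' ?_ ?_ ?_ ?_
    · simpa using h1 0 0
    · simpa using h1 0 1
    · simpa using h1 1 0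
    · simpa using h1 1 1
  | succ k ih =>
    obtain ⟨K, hK⟩ := ih
    refine ⟨K + 4 * (k + 1 + 3), fun m hm w hw => ?_⟩
    obtain ⟨w', h1, h2⟩ := step claimSR (k + 1) m w hw
    exact h2 K ((hK m hm w' h1).map (emb _) emb_CE)

end Pool.Agent.IntComm.Rel
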