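import Pool.Agent.Work.MP_584b0c_al.Rel.Three

set_option autoImplicit false

/-! Relative bounded generation: relative Mennicke symbols as elements of the quotient `Q m`. -/

namespace Pool.Agent.IntComm.Rel

open Matrix Matrix.SpecialLinearGroup

section

variable {I : Type} {m : I → ℤ}

/-- admissible first rows -/
def Rw (m a b : I → ℤ) : Prop := ∀ t, m t ∣ a t - 1 ∧ m t ∣ b t ∧ IsCoprime (a t) (b t)

/-- the class of `hat A` -/
def H (m : I → ℤ) (A : I → G2) : Q m := mk m (hp A)

theorem H_mul (A B : I → G2) : H m (A * B) = H m A * H m B := by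
  unfold H
  rw [map_mul, map_mul]

theorem H_inv (A : I → G2) : H m A⁻¹ = (H m A)⁻¹ := by
  unfold H
  rw [map_inv, map_inv]

theorem Lv_row {A : I → G2} (hA : Lv m A) :
    Rw m (fun t => (A t).1 0 0) (fun t => (A t).1 0 1) := by
  intro t
  refine ⟨(hA t).1, (hA t).2.1, (A t).1 1 1, -(A t).1 1 0, ?_⟩
  have := G2det (A t)
  linarith

theorem exists_compl (m a b : ℤ) (h1 : m ∣ a - 1) (h2 : m ∣ b) (h3 : IsCoprime a b) :
    ∃ A : G2, A.1 0 0 = a ∧ A.1 0 1 = b ∧ m ∣ A.1 1 0 ∧ m ∣ A.1 1 1 - 1 := by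
  have h4 : IsCoprime a m := by
    obtain ⟨k, hk⟩ := h1
    exact ⟨1, -k, by linarith⟩
  obtain ⟨u, v, huv⟩ := h4.mul_right h3
  refine ⟨⟨!![a, b; -(m * v), u], ?_⟩, rfl, rfl, ?_, ?_⟩
  · rw [Matrix.det_fin_two_of]
    linarith
  · exact ⟨-v, by show -(m * v) = _; ring⟩
  · show m ∣ u - 1
    have : u - 1 = -(v * b) * m - u * (a - 1) := by linarith
    rw [this]
    exact (dvd_mul_left _ _).sub (h1.mul_left _)

theorem exists_completion {a b : I → ℤ} (h : Rw m a b) : ∃ A : I → G2, Lv m A ∧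
    (∀ t, (A t).1 0 0 = a t) ∧ ∀ t, (A t).1 0 1 = b t := by
  choose A h1 h2 h3 h4 using fun t => exists_compl (m t) (a t) (b t) (h t).1 (h t).2.1 (h t).2.2
  refine ⟨A, fun t => ⟨?_, ?_, h3 t, h4 t⟩, h1, h2⟩
  · rw [h1]; exact (h t).1
  · rw [h2]; exact (h t).2.1

/-- the class depends only on the first row -/
theorem H_congr {A B : I → G2} (hA : Lv m A) (hB : Lv m B)
    (h0 : ∀ t, (A t).1 0 0 = (B t).1 0 0) (h1 : ∀ t, (A t).1 0 1 = (B t).1 0 1) :
    H m A = H m B := by
  have key : hp B = e10 (fun t => (B t).1 1 0 * (A t).1 1 1 - (B t).1 1 1 * (A t).1 1 0) * hp A := by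
    funext t
    apply Subtype.ext
    show hm (B t).1 = (transvection _ _ : G3).1 * hm (A t).1
    rw [tr10]
    have hdA := G2det (A t)
    have hdB := G2det (B t)
    rw [← h0, ← h1] at hdB
    unfold hm
    ext i j
    fin_cases i <;> fin_cases j <;>
      simp [Matrix.mul_apply, Fin.sum_univ_three, h0, h1]
    · rw [← h0]
      linear_combination ((A t).1 1 0) * hdB - ((B t).1 1 0) * hdA
    · rw [← h1]
      linear_combination ((A t).1 1 1) * hdB - ((B t).1 1 1) * hdA
  unfold H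
  rw [key, map_mul, mk_ef, one_mul]
  intro t
  have h3 := (hA t).2.2.1
  have h4 := (hB t).2.2.1
  exact (h4.mul_right _).sub (h3.mul_left _)

open Classical in
/-- the symbol -/
noncomputable def sy (m a b : I → ℤ) : Q m :=
  if h : Rw m a b then H m (exists_completion h).choose else 1

theorem sy_eq {A : I → G2} (hA : Lv m A) {a b : I → ℤ} (ha : ∀ t, (A t).1 0 0 = a t)
    (hb : ∀ t, (A t).1 0 1 = b t) : H m A = sy m a b := by
  have h : Rw m a b := by
    intro t
    rw [← ha t, ← hb t]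
    exact Lv_row hA t
  rw [sy, dif_pos h]
  obtain ⟨h1, h2, h3⟩ := (exists_completion h).choose_spec
  exact H_congr hA h1 (fun t => by rw [ha, h2]) (fun t => by rw [hb, h3])

theorem sy_comm {a b c d : I → ℤ} (h : Rw m a b) (h' : Rw m c d) :
    Commute (sy m a b) (sy m c d) := by
  obtain ⟨A, hA, h1, h2⟩ := exists_completion h
  obtain ⟨B, hB, h3, h4⟩ := exists_completion h'
  rw [← sy_eq hA h1 h2, ← sy_eq hB h3 h4]
  exact comm_hat hA B

/-- adding level multiples of `a` to `b` -/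
theorem sy_add_right {a b : I → ℤ} (h : Rw m a b) (s : I → ℤ) (b' : I → ℤ)
    (hb : ∀ t, b' t = b t + m t * s t * a t) : sy m a b' = sy m a b := by
  obtain ⟨A, hA, h1, h2⟩ := exists_completion h
  let U : I → G2 := fun t => ⟨!![1, m t * s t; 0, 1], by rw [Matrix.det_fin_two_of]; ring⟩
  have hU : Lv m (A * U) := by
    intro t
    obtain ⟨k1, k2, k3, k4⟩ := hA t
    refine ⟨?_, ?_, ?_, ?_⟩
    · show m t ∣ ((A t).1 * (U t).1) 0 0 - 1
      simpa [U, Matrix.mul_apply, Fin.sum_univ_two] using k1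
    · show m t ∣ ((A t).1 * (U t).1) 0 1
      simp only [U, Matrix.mul_apply, Fin.sum_univ_two, of_apply, cons_val', cons_val_one,
        cons_val_zero, empty_val', cons_val_fin_one, mul_one]
      exact (((dvd_mul_right _ _).mul_left _).add k2)
    · show m t ∣ ((A t).1 * (U t).1) 1 0
      simpa [U, Matrix.mul_apply, Fin.sum_univ_two] using k3
    · show m t ∣ ((A t).1 * (U t).1) 1 1 - 1
      simp only [U, Matrix.mul_apply, Fin.sum_univ_two, of_apply, cons_val', cons_val_one,
        cons_val_zero, empty_val', cons_val_fin_one, mul_one]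
      rw [add_sub_assoc]
      exact (((dvd_mul_right _ _).mul_left _).add k4)
  have hhU : hp U = e01 (fun t => m t * s t) := by
    funext t
    apply Subtype.ext
    show hm (U t).1 = (transvection _ _ : G3).1
    rw [tr01]
    rfl
  have h3 : H m (A * U) = H m A := by
    rw [H_mul]
    unfold H
    rw [hhU, mk_ef _ (fun t => dvd_mul_right _ _), mul_one]
  rw [← sy_eq hA h1 h2, ← h3]
  refine (sy_eq hU (fun t => ?_) (fun t => ?_)).symm
  · show ((A t).1 * (U t).1) 0 0 = _
    simp [U, Matrix.mul_apply, Fin.sum_univ_two, h1]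
  · show ((A t).1 * (U t).1) 0 1 = _
    simp [U, Matrix.mul_apply, Fin.sum_univ_two, h1, h2, hb]
    ring

/-- adding arbitrary multiples of `b` to `a` -/
theorem sy_add_left {a b : I → ℤ} (h : Rw m a b) (s : I → ℤ) (a' : I → ℤ)
    (ha : ∀ t, a' t = a t + s t * b t) : sy m a' b = sy m a b := by
  obtain ⟨A, hA, h1, h2⟩ := exists_completion h
  let U : I → G2 := fun t => ⟨!![1, 0; s t, 1], by rw [Matrix.det_fin_two_of]; ring⟩
  have hUi : ∀ t, (U⁻¹ t).1 = !![1, 0; -s t, 1] := by
    intro t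
    show ((U t)⁻¹).1 = _
    rw [Matrix.SpecialLinearGroup.coe_inv, Matrix.adjugate_fin_two]
    simp [U]
  have hhU : hp U = e10 s := by
    funext t
    apply Subtype.ext
    show hm (U t).1 = (transvection _ _ : G3).1
    rw [tr10]
    rfl
  have hval : ∀ t, ((U⁻¹ * A * U) t).1 = !![a t + b t * s t, b t;
      -s t * (a t + b t * s t) + ((A t).1 1 0 + (A t).1 1 1 * s t),
      -s t * b t + (A t).1 1 1] := by
    intro t
    show (U⁻¹ t).1 * (A t).1 * (U t).1 = _
    rw [hUi, Matrix.eta_fin_two (A t).1, h1, h2]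
    simp only [U]
    rw [Matrix.mul_fin_two, Matrix.mul_fin_two]
    ext i j
    fin_cases i <;> fin_cases j <;> simp
    ring
  have hU : Lv m (U⁻¹ * A * U) := by
    intro t
    obtain ⟨k1, k2, k3, k4⟩ := hA t
    rw [h1] at k1
    rw [h2] at k2
    rw [hval]
    refine ⟨?_, ?_, ?_, ?_⟩
    · show m t ∣ a t + b t * s t - 1
      have : a t + b t * s t - 1 = (a t - 1) + b t * s t := by ring
      rw [this]
      exact k1.add (k2.mul_right _)
    · exact k2
    · show m t ∣ -s t * (a t + b t * s t) + ((A t).1 1 0 + (A t).1 1 1 * s t)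
      have : -s t * (a t + b t * s t) + ((A t).1 1 0 + (A t).1 1 1 * s t) =
        (A t).1 1 0 + ((A t).1 1 1 - 1) * s t - (a t - 1) * s t - b t * (s t * s t) := by ring
      rw [this]
      exact ((k3.add (k4.mul_right _)).sub (k1.mul_right _)).sub (k2.mul_right _)
    · show m t ∣ -s t * b t + (A t).1 1 1 - 1
      rw [add_sub_assoc]
      exact (k2.mul_left _).add k4
  have h3 : H m (U⁻¹ * A * U) = H m A := by
    rw [H_mul, H_mul, H_inv]
    have : Commute (H m A) (H m U) := comm_hat hA U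
    rw [mul_assoc, this.eq, inv_mul_cancel_left]
  rw [← sy_eq hA h1 h2, ← h3]
  refine (sy_eq hU (fun t => ?_) (fun t => ?_)).symm
  · rw [hval, ha]
    show a t + b t * s t = _
    ring
  · rw [hval]
    rfl

theorem sy_one {b : I → ℤ} (h : Rw m 1 b) : sy m 1 b = 1 := by
  let U : I → G2 := fun t => ⟨!![1, b t; 0, 1], by rw [Matrix.det_fin_two_of]; ring⟩
  have hU : Lv m U := fun t => ⟨by simp [U], by simpa [U] using (h t).2.1, by simp [U],
    by simp [U]⟩
  rw [← sy_eq hU (a := 1) (b := b) (fun t => rfl) (fun t => rfl)]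
  have hhU : hp U = e01 b := by
    funext t
    apply Subtype.ext
    show hm (U t).1 = (transvection _ _ : G3).1
    rw [tr01]
    rfl
  unfold H
  rw [hhU, mk_ef _ (fun t => (h t).2.1)]

theorem sy_congr_left {a a' b : I → ℤ} (h : Rw m a b) (hd : ∀ t, b t ∣ a' t - a t) :
    sy m a' b = sy m a b := by
  choose s hs using hd
  exact sy_add_left h s a' (fun t => by linarith [hs t])

theorem Rw_congr {a a' b : I → ℤ} (h : Rw m a b) (hd : ∀ t, b t ∣ a' t - a t) : Rw m a' b := by
  intro t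
  obtain ⟨h1, h2, h3⟩ := h t
  obtain ⟨s, hs⟩ := hd t
  have : a' t = a t + b t * s := by linarith
  refine ⟨?_, h2, ?_⟩
  · rw [this]
    have e : a t + b t * s - 1 = (a t - 1) + b t * s := by ring
    rw [e]
    exact h1.add (h2.mul_right _)
  · rw [this]
    exact IsCoprime.add_mul_left_left h3 s

theorem sy_of_dvd {a b : I → ℤ} (h : Rw m a b) (hd : ∀ t, b t ∣ a t - 1) : sy m a b = 1 := by
  have h1 : Rw m 1 b := fun t => ⟨by simp, (h t).2.1, isCoprime_one_left⟩
  rw [sy_congr_left h1 hd, sy_one h1]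

theorem sy_one_sub {a b : I → ℤ} (h : Rw m a b) (hb : ∀ t, b t = 1 - a t) : sy m a b = 1 := by
  refine sy_of_dvd h (fun t => ?_)
  rw [hb]
  exact ⟨-1, by ring⟩

end

end Pool.Agent.IntComm.Rel
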