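import Pool.Agent.Work.MP_584b0c_al.Rel.Basic
import Pool.Agent.Work.MP_584b0c_al.CK
import Pool.Agent.Work.MP_584b0c_al.Men
import Pool.Agent.Work.MP_584b0c_al.Triv
import Pool.Agent.Work.MP_584b0c_al.Pow
import Pool.Agent.Work.MP_584b0c_al.Dir

set_option autoImplicit false

/-! Relative bounded generation: `SL_2` inside `SL_3`. -/

namespace Pool.Agent.IntComm.Rel

open Matrix Matrix.SpecialLinearGroup

abbrev G2 := SpecialLinearGroup (Fin 2) ℤ
abbrev G3 := SpecialLinearGroup (Fin 3) ℤ

theorem G2det (A : G2) : A.1 0 0 * A.1 1 1 - A.1 0 1 * A.1 1 0 = 1 := by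
  rw [← Matrix.det_fin_two]
  exact A.2

theorem G2ext {A B : G2} (h1 : A.1 0 0 = B.1 0 0) (h2 : A.1 0 1 = B.1 0 1)
    (h3 : A.1 1 0 = B.1 1 0) (h4 : A.1 1 1 = B.1 1 1) : A = B := by
  apply Subtype.ext
  ext i j
  fin_cases i <;> fin_cases j
  · exact h1
  · exact h2
  · exact h3
  · exact h4

/-- `diag(A, 1)` -/
def hm (A : Matrix (Fin 2) (Fin 2) ℤ) : Matrix (Fin 3) (Fin 3) ℤ :=
  !![A 0 0, A 0 1, 0; A 1 0, A 1 1, 0; 0, 0, 1]

theorem hm_mul (A B : Matrix (Fin 2) (Fin 2) ℤ) : hm (A * B) = hm A * hm B := by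
  unfold hm
  ext i j
  fin_cases i <;> fin_cases j <;> simp [Matrix.mul_apply, Fin.sum_univ_three, Fin.sum_univ_two]

theorem hm_one : hm 1 = 1 := by
  unfold hm
  ext i j
  fin_cases i <;> fin_cases j <;> simp

theorem hm_det (A : G2) : (hm A.1).det = 1 := by
  have h := G2det A
  simp [hm, Matrix.det_fin_three]
  linarith

/-- `diag(A, 1)` -/
def hat : G2 →* G3 where
  toFun A := ⟨hm A.1, hm_det A⟩
  map_one' := Subtype.ext hm_one
  map_mul' A B := Subtype.ext (hm_mul A.1 B.1)

theorem hat_val (A : G2) : (hat A).1 = !![A.1 0 0, A.1 0 1, 0; A.1 1 0, A.1 1 1, 0; 0, 0, 1] := rfl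

theorem tr01 (x : ℤ) : (transvection (show (0 : Fin 3) ≠ 1 by decide) x : G3).1 =
    !![1, x, 0; 0, 1, 0; 0, 0, 1] := by
  ext i j
  rw [transvection_coe]
  fin_cases i <;> fin_cases j <;> simp

theorem tr02 (x : ℤ) : (transvection (show (0 : Fin 3) ≠ 2 by decide) x : G3).1 =
    !![1, 0, x; 0, 1, 0; 0, 0, 1] := by
  ext i j
  rw [transvection_coe]
  fin_cases i <;> fin_cases j <;> simp

theorem tr10 (x : ℤ) : (transvection (show (1 : Fin 3) ≠ 0 by decide) x : G3).1 =
    !![1, 0, 0; x, 1, 0; 0, 0, 1] := by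
  ext i j
  rw [transvection_coe]
  fin_cases i <;> fin_cases j <;> simp

theorem tr12 (x : ℤ) : (transvection (show (1 : Fin 3) ≠ 2 by decide) x : G3).1 =
    !![1, 0, 0; 0, 1, x; 0, 0, 1] := by
  ext i j
  rw [transvection_coe]
  fin_cases i <;> fin_cases j <;> simp

theorem tr20 (x : ℤ) : (transvection (show (2 : Fin 3) ≠ 0 by decide) x : G3).1 =
    !![1, 0, 0; 0, 1, 0; x, 0, 1] := by
  ext i j
  rw [transvection_coe]
  fin_cases i <;> fin_cases j <;> simp

theorem tr21 (x : ℤ) : (transvection (show (2 : Fin 3) ≠ 1 by decide) x : G3).1 =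
    !![1, 0, 0; 0, 1, 0; 0, x, 1] := by
  ext i j
  rw [transvection_coe]
  fin_cases i <;> fin_cases j <;> simp

section

variable {I : Type}

abbrev e01 (x : I → ℤ) : I → G3 := ef (show (0 : Fin 3) ≠ 1 by decide) x
abbrev e02 (x : I → ℤ) : I → G3 := ef (show (0 : Fin 3) ≠ 2 by decide) x
abbrev e10 (x : I → ℤ) : I → G3 := ef (show (1 : Fin 3) ≠ 0 by decide) x
abbrev e12 (x : I → ℤ) : I → G3 := ef (show (1 : Fin 3) ≠ 2 by decide) x
abbrev e20 (x : I → ℤ) : I → G3 := ef (show (2 : Fin 3) ≠ 0 by decide) x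
abbrev e21 (x : I → ℤ) : I → G3 := ef (show (2 : Fin 3) ≠ 1 by decide) x

/-- pointwise `hat` -/
def hp : (I → G2) →* (I → G3) := hat.compLeft I

theorem hp_apply (A : I → G2) (t : I) : hp A t = hat (A t) := rfl

/-- the quotient in which all computations take place -/
abbrev Q (m : I → ℤ) := (I → G3) ⧸ Bd (Fin 3) m

abbrev mk (m : I → ℤ) : (I → G3) →* Q m := QuotientGroup.mk' (Bd (Fin 3) m)

theorem mk_eq_one {m : I → ℤ} {w : I → G3} : mk m w = 1 ↔ w ∈ Bd (Fin 3) m :=
  QuotientGroup.eq_one_iff w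

/-- congruent to one modulo the level -/
def Lv (m : I → ℤ) (A : I → G2) : Prop :=
  ∀ t, m t ∣ (A t).1 0 0 - 1 ∧ m t ∣ (A t).1 0 1 ∧ m t ∣ (A t).1 1 0 ∧ m t ∣ (A t).1 1 1 - 1

variable {m : I → ℤ}

theorem mk_ef {i j : Fin 3} (h : i ≠ j) {x : I → ℤ} (hx : ∀ t, m t ∣ x t) :
    mk m (ef h x) = 1 := mk_eq_one.2 (ef_mem h hx)

theorem mk_ef_congr {i j : Fin 3} (h : i ≠ j) {x y : I → ℤ} (hx : ∀ t, m t ∣ x t - y t) :
    mk m (ef h x) = mk m (ef h y) := by
  have : x = (x - y) + y := by
    funext t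
    simp
  rw [this, ef_add, map_mul, mk_ef (x := x - y) h hx, one_mul]

theorem id02 (A : I → G2) (x : I → ℤ) : hp A * e02 x =
    e02 (fun t => (A t).1 0 0 * x t) * e12 (fun t => (A t).1 1 0 * x t) * hp A := by
  funext t
  apply Subtype.ext
  show (hat (A t)).1 * (transvection _ (x t) : G3).1 =
    (transvection _ ((A t).1 0 0 * x t) : G3).1 * (transvection _ ((A t).1 1 0 * x t) : G3).1 *
      (hat (A t)).1
  rw [tr02, tr02, tr12, hat_val]
  ext i j
  fin_cases i <;> fin_cases j <;> simp [Matrix.mul_apply, Fin.sum_univ_three]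

theorem id12 (A : I → G2) (x : I → ℤ) : hp A * e12 x =
    e02 (fun t => (A t).1 0 1 * x t) * e12 (fun t => (A t).1 1 1 * x t) * hp A := by
  funext t
  apply Subtype.ext
  show (hat (A t)).1 * (transvection _ (x t) : G3).1 =
    (transvection _ ((A t).1 0 1 * x t) : G3).1 * (transvection _ ((A t).1 1 1 * x t) : G3).1 *
      (hat (A t)).1
  rw [tr12, tr02, tr12, hat_val]
  ext i j
  fin_cases i <;> fin_cases j <;> simp [Matrix.mul_apply, Fin.sum_univ_three]

theorem id20 (A : I → G2) (x : I → ℤ) : e20 x * hp A =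
    hp A * (e20 (fun t => (A t).1 0 0 * x t) * e21 (fun t => (A t).1 0 1 * x t)) := by
  funext t
  apply Subtype.ext
  show (transvection _ (x t) : G3).1 * (hat (A t)).1 =
    (hat (A t)).1 * ((transvection _ ((A t).1 0 0 * x t) : G3).1 *
      (transvection _ ((A t).1 0 1 * x t) : G3).1)
  rw [tr20, tr20, tr21, hat_val]
  ext i j
  fin_cases i <;> fin_cases j <;> simp [Matrix.mul_apply, Fin.sum_univ_three, mul_comm]

theorem id21 (A : I → G2) (x : I → ℤ) : e21 x * hp A =
    hp A * (e20 (fun t => (A t).1 1 0 * x t) * e21 (fun t => (A t).1 1 1 * x t)) := by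
  funext t
  apply Subtype.ext
  show (transvection _ (x t) : G3).1 * (hat (A t)).1 =
    (hat (A t)).1 * ((transvection _ ((A t).1 1 0 * x t) : G3).1 *
      (transvection _ ((A t).1 1 1 * x t) : G3).1)
  rw [tr21, tr20, tr21, hat_val]
  ext i j
  fin_cases i <;> fin_cases j <;> simp [Matrix.mul_apply, Fin.sum_univ_three, mul_comm]

theorem com01 (x : I → ℤ) : e01 x = e02 x * e21 1 * (e02 x)⁻¹ * (e21 1)⁻¹ := by
  rw [eq_mul_inv_iff_mul_eq, eq_mul_inv_iff_mul_eq]
  funext t
  apply Subtype.ext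
  show (transvection _ (x t) : G3).1 * (transvection _ (1 : ℤ) : G3).1 *
    (transvection _ (x t) : G3).1 = (transvection _ (x t) : G3).1 * (transvection _ (1 : ℤ) : G3).1
  rw [tr01, tr21, tr02]
  ext i j
  fin_cases i <;> fin_cases j <;> simp [Matrix.mul_apply, Fin.sum_univ_three]

theorem com10 (x : I → ℤ) : e10 x = e12 x * e20 1 * (e12 x)⁻¹ * (e20 1)⁻¹ := by
  rw [eq_mul_inv_iff_mul_eq, eq_mul_inv_iff_mul_eq]
  funext t
  apply Subtype.ext
  show (transvection _ (x t) : G3).1 * (transvection _ (1 : ℤ) : G3).1 *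
    (transvection _ (x t) : G3).1 = (transvection _ (x t) : G3).1 * (transvection _ (1 : ℤ) : G3).1
  rw [tr10, tr20, tr12]
  ext i j
  fin_cases i <;> fin_cases j <;> simp [Matrix.mul_apply, Fin.sum_univ_three]

theorem comm02 {A : I → G2} (hA : Lv m A) (x : I → ℤ) : Commute (mk m (hp A)) (mk m (e02 x)) := by
  have h := congrArg (mk m) (id02 A x)
  rw [map_mul, map_mul, map_mul, mk_ef (m := m) (i := 1) (j := 2) _
    (fun t => ((hA t).2.2.1).mul_right _), mul_one,
    mk_ef_congr (m := m) (x := fun t => (A t).1 0 0 * x t) (y := x) _ (fun t => by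
      have := ((hA t).1).mul_right (x t)
      rwa [sub_mul, one_mul] at this)] at h
  exact h

theorem comm12 {A : I → G2} (hA : Lv m A) (x : I → ℤ) : Commute (mk m (hp A)) (mk m (e12 x)) := by
  have h := congrArg (mk m) (id12 A x)
  rw [map_mul, map_mul, map_mul, mk_ef (m := m) (i := 0) (j := 2) _
    (fun t => ((hA t).2.1).mul_right _), one_mul,
    mk_ef_congr (m := m) (x := fun t => (A t).1 1 1 * x t) (y := x) _ (fun t => by
      have := ((hA t).2.2.2).mul_right (x t)
      rwa [sub_mul, one_mul] at this)] at h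
  exact h

theorem comm20 {A : I → G2} (hA : Lv m A) (x : I → ℤ) : Commute (mk m (hp A)) (mk m (e20 x)) := by
  have h := congrArg (mk m) (id20 A x)
  rw [map_mul, map_mul, map_mul, mk_ef (m := m) (i := 2) (j := 1) _
    (fun t => ((hA t).2.1).mul_right _), mul_one,
    mk_ef_congr (m := m) (x := fun t => (A t).1 0 0 * x t) (y := x) _ (fun t => by
      have := ((hA t).1).mul_right (x t)
      rwa [sub_mul, one_mul] at this)] at h
  exact h.symm

theorem comm21 {A : I → G2} (hA : Lv m A) (x : I → ℤ) : Commute (mk m (hp A)) (mk m (e21 x)) := by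
  have h := congrArg (mk m) (id21 A x)
  rw [map_mul, map_mul, map_mul, mk_ef (m := m) (i := 2) (j := 0) _
    (fun t => ((hA t).2.2.1).mul_right _), one_mul,
    mk_ef_congr (m := m) (x := fun t => (A t).1 1 1 * x t) (y := x) _ (fun t => by
      have := ((hA t).2.2.2).mul_right (x t)
      rwa [sub_mul, one_mul] at this)] at h
  exact h.symm

theorem comm01 {A : I → G2} (hA : Lv m A) (x : I → ℤ) : Commute (mk m (hp A)) (mk m (e01 x)) := by
  rw [com01, map_mul, map_mul, map_mul, map_inv, map_inv]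
  exact (((comm02 hA x).mul_right (comm21 hA 1)).mul_right (comm02 hA x).inv_right).mul_right
    (comm21 hA 1).inv_right

theorem comm10 {A : I → G2} (hA : Lv m A) (x : I → ℤ) : Commute (mk m (hp A)) (mk m (e10 x)) := by
  rw [com10, map_mul, map_mul, map_mul, map_inv, map_inv]
  exact (((comm12 hA x).mul_right (comm20 hA 1)).mul_right (comm12 hA x).inv_right).mul_right
    (comm20 hA 1).inv_right

theorem comm_ef {A : I → G2} (hA : Lv m A) {i j : Fin 3} (h : i ≠ j) (x : I → ℤ) :
    Commute (mk m (hp A)) (mk m (ef h x)) := by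
  fin_cases i <;> fin_cases j
  · exact absurd rfl h
  · exact comm01 hA x
  · exact comm02 hA x
  · exact comm10 hA x
  · exact absurd rfl h
  · exact comm12 hA x
  · exact comm20 hA x
  · exact comm21 hA x
  · exact absurd rfl h

/-- a family with one elementary matrix at each index, of varying position -/
theorem comm_el1 {A : I → G2} (hA : Lv m A) (w : I → G3)
    (hw : ∀ t, w t = 1 ∨ ∃ (i j : Fin 3) (h : i ≠ j) (x : ℤ), w t = transvection h x) :
    Commute (mk m (hp A)) (mk m w) := by
  classical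
  have key : ∃ x01 x02 x10 x12 x20 x21 : I → ℤ,
      w = e01 x01 * e02 x02 * e10 x10 * e12 x12 * e20 x20 * e21 x21 := by
    have h1 : ∀ t, ∃ a b c d e f : ℤ, w t =
        transvection (show (0 : Fin 3) ≠ 1 by decide) a *
        transvection (show (0 : Fin 3) ≠ 2 by decide) b *
        transvection (show (1 : Fin 3) ≠ 0 by decide) c *
        transvection (show (1 : Fin 3) ≠ 2 by decide) d *
        transvection (show (2 : Fin 3) ≠ 0 by decide) e *
        transvection (show (2 : Fin 3) ≠ 1 by decide) f := by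
      intro t
      rcases hw t with h | ⟨i, j, h, x, hx⟩
      · exact ⟨0, 0, 0, 0, 0, 0, by simp [h]⟩
      · rw [hx]
        fin_cases i <;> fin_cases j
        · exact absurd rfl h
        · exact ⟨x, 0, 0, 0, 0, 0, by simp⟩
        · exact ⟨0, x, 0, 0, 0, 0, by simp⟩
        · exact ⟨0, 0, x, 0, 0, 0, by simp⟩
        · exact absurd rfl h
        · exact ⟨0, 0, 0, x, 0, 0, by simp⟩
        · exact ⟨0, 0, 0, 0, x, 0, by simp⟩
        · exact ⟨0, 0, 0, 0, 0, x, by simp⟩
        · exact absurd rfl h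
    choose a b c d e f h using h1
    exact ⟨a, b, c, d, e, f, funext h⟩
  obtain ⟨a, b, c, d, e, f, h⟩ := key
  rw [h, map_mul, map_mul, map_mul, map_mul, map_mul]
  exact (((((comm01 hA a).mul_right (comm02 hA b)).mul_right (comm10 hA c)).mul_right
    (comm12 hA d)).mul_right (comm20 hA e)).mul_right (comm21 hA f)

/-- families of bounded elementary length commute with `hat A` modulo `Bd` -/
theorem comm_el {A : I → G2} (hA : Lv m A) (r : ℕ) : ∀ w : I → G3, (∀ t, El r (w t).1) →
    Commute (mk m (hp A)) (mk m w) := by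
  induction r with
  | zero =>
    intro w hw
    have : w = 1 := by
      funext t
      obtain ⟨L, hL, h⟩ := hw t
      have : L = [] := List.eq_nil_of_length_eq_zero (by omega)
      subst this
      apply Subtype.ext
      rw [h]
      simp
    rw [this, map_one]
    exact Commute.one_right _
  | succ r ih =>
    intro w hw
    have h1 : ∀ t, ∃ u v : G3, w t = u * v ∧
        (u = 1 ∨ ∃ (i j : Fin 3) (h : i ≠ j) (x : ℤ), u = transvection h x) ∧ El r v.1 := by
      intro t
      obtain ⟨L, hL, h⟩ := hw t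
      cases L with
      | nil =>
        refine ⟨1, w t, by simp, Or.inl rfl, [], by simp, ?_⟩
        rw [h]
      | cons s L =>
        have hs : (transvection s.hij s.c : G3).1 = s.toMatrix := rfl
        refine ⟨transvection s.hij s.c, (transvection s.hij s.c)⁻¹ * w t, by group,
          Or.inr ⟨s.i, s.j, s.hij, s.c, rfl⟩, L, by simpa using hL, ?_⟩
        have h2 : (w t).1 = (transvection s.hij s.c : G3).1 *
            (L.map TransvectionStruct.toMatrix).prod := by
          rw [h, hs, List.map_cons, List.prod_cons]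
        show ((transvection s.hij s.c : G3)⁻¹).1 * (w t).1 = _
        rw [h2, ← Matrix.mul_assoc]
        have h3 : ((transvection s.hij s.c : G3)⁻¹).1 * (transvection s.hij s.c : G3).1 = 1 := by
          have := congrArg Subtype.val (inv_mul_cancel (transvection s.hij s.c : G3))
          exact this
        rw [h3, Matrix.one_mul]
    choose u v h1 h2 h3 using h1
    have : w = u * v := funext h1
    rw [this, map_mul]
    exact (comm_el1 hA u h2).mul_right (ih v h3)

theorem ckAll : ClaimCK := claimCK (claimPow claimMen claimTriv) claimDir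

theorem corner_hat (A : G2) : (corner A.1 : Matrix (Fin 3) (Fin 3) ℤ) = (hat A).1 := by
  rw [hat_val]
  ext i j
  fin_cases i <;> fin_cases j <;> rfl

/-- `hat A`, `A` of level `m`, is central modulo `Bd` in the image of `SL_2`. -/
theorem comm_hat {A : I → G2} (hA : Lv m A) (B : I → G2) :
    Commute (mk m (hp A)) (mk m (hp B)) := by
  refine comm_el hA 80 _ (fun t => ?_)
  rw [hp_apply, ← corner_hat]
  exact ckAll _ (B t).2

end

end Pool.Agent.IntComm.Rel
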